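import Mathlib

/-!
# A reverse hypercontractive inequality for `h` functions

`rh`: let `W = (1 + W') / 2`, `W' ≥ 0` with mean `1` on `Ω^h` and with one-dimensional marginal densities
`ρ i` close to `1` in mean square. Then the mean of `W ∏ G_i^M` is at least
`(1 - 16 (h + 1)^3 η) ∏ (mean of G_i)^M`, `M = 16 (h + 1)`.
-/

set_option autoImplicit false

namespace Pool.Agent.Q248.HP

open Finset

/-- the exponent -/
def MM (h : ℕ) : ℕ := 16 * (h + 1)

/-- the auxiliary function of one variable -/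
noncomputable def psi (h : ℕ) (g : ℝ) : ℝ :=
  if g < 3 / 4 then -((h : ℝ) + 2) else
    (MM h : ℝ) * ((min g 2 - 1) - 3 / 2 * (min g 2 - 1) ^ 2) -
      4 * h * MM h * (max (min g 2 - 1) 0) ^ 2

lemma exp_le {t : ℝ} (ht : 3 / 4 ≤ t) : Real.exp ((t - 1) - 3 / 2 * (t - 1) ^ 2) ≤ t := by
  have h0 : 0 < t := by linarith
  rw [← Real.le_log_iff_exp_le h0]
  refine le_trans ?_ (Real.one_sub_inv_le_log_of_pos h0)
  have e : 1 - t⁻¹ - ((t - 1) - 3 / 2 * (t - 1) ^ 2) = (t - 1) ^ 2 * (3 * t - 2) / (2 * t) := by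
    field_simp
    ring
  have : 0 ≤ (t - 1) ^ 2 * (3 * t - 2) / (2 * t) := by
    have : 0 ≤ 3 * t - 2 := by linarith
    positivity
  linarith

lemma psi_le (h : ℕ) (hh : 1 ≤ h) (g : ℝ) : psi h g ≤ ((h : ℝ) + 1) / h := by
  have h1 : (1 : ℝ) ≤ h := by exact_mod_cast hh
  unfold psi
  split_ifs with hg
  · have : 0 ≤ ((h : ℝ) + 1) / h := by positivity
    linarith
  · set z := min g 2 - 1 with hz
    set w := max z 0 with hw
    have hzw : z ≤ w := le_max_left _ _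
    have hM : (MM h : ℝ) = 16 * (h + 1) := by unfold MM; push_cast; ring
    rw [hM]
    have h2 : (w : ℝ) - 4 * h * w ^ 2 ≤ 1 / (16 * h) := by
      rw [le_div_iff₀ (by positivity)]
      nlinarith [sq_nonneg (8 * (h : ℝ) * w - 1)]
    have h3 : z - 3 / 2 * z ^ 2 ≤ w := by nlinarith [sq_nonneg z]
    calc (16 * ((h : ℝ) + 1)) * (z - 3 / 2 * z ^ 2) - 4 * h * (16 * (h + 1)) * w ^ 2
        ≤ (16 * ((h : ℝ) + 1)) * w - 4 * h * (16 * (h + 1)) * w ^ 2 := by
          have : (16 * ((h : ℝ) + 1)) * (z - 3 / 2 * z ^ 2) ≤ (16 * ((h : ℝ) + 1)) * w :=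
            mul_le_mul_of_nonneg_left h3 (by positivity)
          linarith
      _ = 16 * ((h : ℝ) + 1) * (w - 4 * h * w ^ 2) := by ring
      _ ≤ 16 * ((h : ℝ) + 1) * (1 / (16 * h)) := mul_le_mul_of_nonneg_left h2 (by positivity)
      _ = ((h : ℝ) + 1) / h := by field_simp

/-- the inequality for tuples -/
lemma tuple_ineq (h : ℕ) (hh : 1 ≤ h) (g : Fin h → ℝ) (hg : ∀ i, 0 ≤ g i) :
    1 + ∑ i, psi h (g i) ≤ ∏ i, g i ^ MM h := by
  have h1 : (1 : ℝ) ≤ h := by exact_mod_cast hh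
  by_cases hB : ∃ j, g j < 3 / 4
  · obtain ⟨j, hj⟩ := hB
    have h2 : 0 ≤ ∏ i, g i ^ MM h := Finset.prod_nonneg fun i _ => pow_nonneg (hg i) _
    refine le_trans ?_ h2
    rw [← Finset.add_sum_erase _ _ (Finset.mem_univ j)]
    have h3 : psi h (g j) = -((h : ℝ) + 2) := by unfold psi; rw [if_pos hj]
    have h4 : ∑ i ∈ Finset.univ.erase j, psi h (g i) ≤
        ∑ _i ∈ Finset.univ.erase j, ((h : ℝ) + 1) / h :=
      Finset.sum_le_sum fun i _ => psi_le h hh _
    rw [Finset.sum_const, Finset.card_erase_of_mem (Finset.mem_univ j), Finset.card_univ,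
      Fintype.card_fin, nsmul_eq_mul, Nat.cast_sub hh] at h4
    have h5 : ((h : ℝ) - (1 : ℕ)) * (((h : ℝ) + 1) / h) ≤ h := by
      rw [← mul_div_assoc, div_le_iff₀ (by linarith)]
      push_cast
      nlinarith
    rw [h3]
    linarith
  · push Not at hB
    have h2 : ∀ i, Real.exp ((min (g i) 2 - 1) - 3 / 2 * (min (g i) 2 - 1) ^ 2) ≤ g i := fun i =>
      (exp_le (le_min (hB i) (by norm_num))).trans (min_le_left _ _)
    calc 1 + ∑ i, psi h (g i)
        ≤ 1 + ∑ i, (MM h : ℝ) * ((min (g i) 2 - 1) - 3 / 2 * (min (g i) 2 - 1) ^ 2) := by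
          gcongr with i _
          unfold psi
          rw [if_neg (not_lt.2 (hB i))]
          have : (0 : ℝ) ≤ 4 * h * MM h * (max (min (g i) 2 - 1) 0) ^ 2 := by positivity
          linarith
      _ ≤ Real.exp (∑ i, (MM h : ℝ) * ((min (g i) 2 - 1) - 3 / 2 * (min (g i) 2 - 1) ^ 2)) := by
          rw [add_comm]
          exact Real.add_one_le_exp _
      _ = ∏ i, Real.exp ((min (g i) 2 - 1) - 3 / 2 * (min (g i) 2 - 1) ^ 2) ^ MM h := by
          rw [Real.exp_sum]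
          refine Finset.prod_congr rfl fun i _ => ?_
          rw [← Real.exp_nat_mul]
      _ ≤ ∏ i, g i ^ MM h := by
          refine Finset.prod_le_prod (fun i _ => pow_nonneg (Real.exp_pos _).le _) fun i _ => ?_
          exact pow_le_pow_left₀ (Real.exp_pos _).le (h2 i) _

/-- second order Bernoulli -/
lemma bern2 (D : ℝ) (hD : 0 ≤ D) (n : ℕ) :
    1 + n * D + n * ((n : ℝ) - 1) / 2 * D ^ 2 ≤ (1 + D) ^ n := by
  induction n with
  | zero => simp
  | succ n ih =>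
    rw [pow_succ]
    have h1 : (1 + n * D + n * ((n : ℝ) - 1) / 2 * D ^ 2) * (1 + D) ≤ (1 + D) ^ n * (1 + D) :=
      mul_le_mul_of_nonneg_right ih (by linarith)
    refine le_trans ?_ h1
    push_cast
    have h2 : 0 ≤ (n : ℝ) * ((n : ℝ) - 1) := by
      rcases Nat.eq_zero_or_pos n with h | h
      · subst h; simp
      · have : (1 : ℝ) ≤ n := by exact_mod_cast h
        nlinarith
    have h3 : 0 ≤ (n : ℝ) * ((n : ℝ) - 1) / 2 * D ^ 3 := by positivity
    nlinarith [h3]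

lemma one_ineq (h : ℕ) (hh : 1 ≤ h) (g : ℝ) (hg : 0 ≤ g) (ρ : ℝ) :
    -(32 * ((h : ℝ) + 1) ^ 3 * (ρ - 1) ^ 2) ≤
      g ^ MM h - 1 - 2 * MM h * (g - 1) + ρ * psi h g := by
  have h1 : (1 : ℝ) ≤ h := by exact_mod_cast hh
  have hM : (MM h : ℝ) = 16 * (h + 1) := by unfold MM; push_cast; ring
  -- enough: `H ≥ ψ² / (128 (h+1)^3)`
  suffices H : psi h g ^ 2 / (128 * ((h : ℝ) + 1) ^ 3) ≤
      g ^ MM h - 1 - 2 * MM h * (g - 1) + psi h g by
    have h2 : -(32 * ((h : ℝ) + 1) ^ 3 * (ρ - 1) ^ 2) ≤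
        psi h g ^ 2 / (128 * ((h : ℝ) + 1) ^ 3) + (ρ - 1) * psi h g := by
      have hp : 0 < 128 * ((h : ℝ) + 1) ^ 3 := by positivity
      rw [← sub_nonneg]
      have e : psi h g ^ 2 / (128 * ((h : ℝ) + 1) ^ 3) + (ρ - 1) * psi h g -
          -(32 * ((h : ℝ) + 1) ^ 3 * (ρ - 1) ^ 2) =
          (psi h g + 64 * ((h : ℝ) + 1) ^ 3 * (ρ - 1)) ^ 2 / (128 * ((h : ℝ) + 1) ^ 3) := by
        field_simp
        ring
      rw [e]
      positivity
    nlinarith
  have hp : 0 < 128 * ((h : ℝ) + 1) ^ 3 := by positivity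
  rw [div_le_iff₀ hp, hM]
  by_cases hB : g < 3 / 4
  · have e : psi h g = -((h : ℝ) + 2) := by unfold psi; rw [if_pos hB]
    rw [e]
    have h2 : 0 ≤ g ^ MM h := pow_nonneg hg _
    have h3 : 4 * ((h : ℝ) + 1) ≤
        g ^ MM h - 1 - 2 * (16 * ((h : ℝ) + 1)) * (g - 1) + -((h : ℝ) + 2) := by nlinarith
    have h4 : 4 * ((h : ℝ) + 1) * (128 * ((h : ℝ) + 1) ^ 3) ≤
        (g ^ MM h - 1 - 2 * (16 * ((h : ℝ) + 1)) * (g - 1) + -((h : ℝ) + 2)) *
          (128 * ((h : ℝ) + 1) ^ 3) := mul_le_mul_of_nonneg_right h3 hp.le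
    refine le_trans ?_ h4
    have h5 : (-((h : ℝ) + 2)) ^ 2 ≤ 4 * ((h : ℝ) + 1) ^ 2 := by nlinarith
    have h6 : (1 : ℝ) ≤ ((h : ℝ) + 1) ^ 2 := by nlinarith
    have h7 : 4 * ((h : ℝ) + 1) ^ 2 ≤ 4 * ((h : ℝ) + 1) * (128 * ((h : ℝ) + 1) ^ 3) := by
      have : 4 * ((h : ℝ) + 1) * (128 * ((h : ℝ) + 1) ^ 3) =
        (4 * ((h : ℝ) + 1) ^ 2) * (128 * ((h : ℝ) + 1) ^ 2) := by ring
      rw [this]
      nlinarith [sq_nonneg ((h : ℝ) + 1)]
    linarith
  · rw [not_lt] at hB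
    by_cases h1g : g < 1
    · -- 3/4 ≤ g < 1
      set δ := 1 - g with hδ
      have hδ0 : 0 < δ := by linarith
      have hδ1 : δ ≤ 1 / 4 := by linarith
      have e : psi h g = -(16 * ((h : ℝ) + 1) * (δ + 3 / 2 * δ ^ 2)) := by
        unfold psi
        rw [if_neg (not_lt.2 hB), min_eq_left (by linarith), max_eq_right (by linarith), hM]
        simp only [hδ]
        ring
      have hpow : 1 - 16 * ((h : ℝ) + 1) * δ + 2 * (16 * ((h : ℝ) + 1)) * δ ^ 2 ≤ g ^ MM h := by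
        by_cases hc : 8 * ((h : ℝ) + 1) * δ ≤ 1
        · have h2 : (1 - 8 * ((h : ℝ) + 1) * δ) ≤ g ^ (8 * (h + 1)) := by
            have h3 := one_add_mul_le_pow (show (-2 : ℝ) ≤ -δ by linarith) (8 * (h + 1))
            have e1 : (1 : ℝ) + -δ = g := by rw [hδ]; ring
            rw [e1] at h3
            push_cast at h3
            linarith
          have h4 : (1 - 8 * ((h : ℝ) + 1) * δ) ^ 2 ≤ (g ^ (8 * (h + 1))) ^ 2 :=
            pow_le_pow_left₀ (by linarith) h2 2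
          have e2 : (g ^ (8 * (h + 1))) ^ 2 = g ^ MM h := by
            rw [← pow_mul]; congr 1; unfold MM; ring
          rw [e2] at h4
          refine le_trans ?_ h4
          have : 32 * ((h : ℝ) + 1) * δ ^ 2 ≤ 64 * ((h : ℝ) + 1) ^ 2 * δ ^ 2 := by
            apply mul_le_mul_of_nonneg_right _ (sq_nonneg _)
            nlinarith
          nlinarith
        · rw [not_le] at hc
          have h2 : 0 ≤ g ^ MM h := pow_nonneg hg _
          refine le_trans ?_ h2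
          have : 2 * (16 * ((h : ℝ) + 1)) * δ ^ 2 ≤ 8 * ((h : ℝ) + 1) * δ := by
            have : δ ^ 2 ≤ 1 / 4 * δ := by nlinarith
            nlinarith
          linarith
      rw [e]
      have h5 : 8 * ((h : ℝ) + 1) * δ ^ 2 ≤
          g ^ MM h - 1 - 2 * (16 * ((h : ℝ) + 1)) * (g - 1) +
            -(16 * ((h : ℝ) + 1) * (δ + 3 / 2 * δ ^ 2)) := by
        have e3 : g - 1 = -δ := by rw [hδ]; ring
        rw [e3]
        nlinarith
      have h6 := mul_le_mul_of_nonneg_right h5 hp.le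
      refine le_trans ?_ h6
      have h7 : (-(16 * ((h : ℝ) + 1) * (δ + 3 / 2 * δ ^ 2))) ^ 2 ≤
          (16 * ((h : ℝ) + 1)) ^ 2 * (2 * δ ^ 2) := by
        rw [neg_sq, mul_pow]
        apply mul_le_mul_of_nonneg_left _ (by positivity)
        have : δ + 3 / 2 * δ ^ 2 ≤ 11 / 8 * δ := by nlinarith
        calc (δ + 3 / 2 * δ ^ 2) ^ 2 ≤ (11 / 8 * δ) ^ 2 :=
              pow_le_pow_left₀ (by positivity) this 2
          _ ≤ 2 * δ ^ 2 := by nlinarith [sq_nonneg δ]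
      refine h7.trans ?_
      have e4 : 8 * ((h : ℝ) + 1) * δ ^ 2 * (128 * ((h : ℝ) + 1) ^ 3) =
        ((h : ℝ) + 1) ^ 2 * δ ^ 2 * (1024 * ((h : ℝ) + 1) ^ 2) := by ring
      have e5 : (16 * ((h : ℝ) + 1)) ^ 2 * (2 * δ ^ 2) = ((h : ℝ) + 1) ^ 2 * δ ^ 2 * 512 := by ring
      rw [e4, e5]
      apply mul_le_mul_of_nonneg_left _ (by positivity)
      nlinarith
    · rw [not_lt] at h1g
      -- g ≥ 1
      set D := g - 1 with hD
      have hD0 : 0 ≤ D := by linarith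
      have hpow : 1 + (16 * ((h : ℝ) + 1)) * D +
          (16 * ((h : ℝ) + 1)) * ((16 * ((h : ℝ) + 1)) - 1) / 2 * D ^ 2 ≤ g ^ MM h := by
        have := bern2 D hD0 (MM h)
        rw [hM] at this
        have e1 : 1 + D = g := by rw [hD]; ring
        rwa [e1] at this
      by_cases h2g : g ≤ 2
      · have e : psi h g = 16 * ((h : ℝ) + 1) * (D - (3 / 2 + 4 * h) * D ^ 2) := by
          unfold psi
          rw [if_neg (not_lt.2 hB), min_eq_left h2g, max_eq_left (by linarith), hM]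
          ring
        have hD1 : D ≤ 1 := by linarith
        rw [e]
        have h5 : 16 * ((h : ℝ) + 1) * D ^ 2 * (4 * h + 6) ≤
            g ^ MM h - 1 - 2 * (16 * ((h : ℝ) + 1)) * D +
              16 * ((h : ℝ) + 1) * (D - (3 / 2 + 4 * h) * D ^ 2) := by
          nlinarith
        have h6 := mul_le_mul_of_nonneg_right h5 hp.le
        refine le_trans ?_ h6
        have h7 : (1 - (3 / 2 + 4 * (h : ℝ)) * D) ^ 2 ≤ (4 * ((h : ℝ) + 1)) ^ 2 := by
          apply sq_le_sq'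
          · nlinarith
          · nlinarith
        have e1 : (16 * ((h : ℝ) + 1) * (D - (3 / 2 + 4 * h) * D ^ 2)) ^ 2 =
            (16 * ((h : ℝ) + 1)) ^ 2 * D ^ 2 * (1 - (3 / 2 + 4 * (h : ℝ)) * D) ^ 2 := by ring
        rw [e1]
        refine (mul_le_mul_of_nonneg_left h7 (by positivity)).trans ?_
        have e2 : (16 * ((h : ℝ) + 1)) ^ 2 * D ^ 2 * (4 * ((h : ℝ) + 1)) ^ 2 =
            ((h : ℝ) + 1) ^ 4 * D ^ 2 * 4096 := by ring
        have e3 : 16 * ((h : ℝ) + 1) * D ^ 2 * (4 * h + 6) * (128 * ((h : ℝ) + 1) ^ 3) =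
            ((h : ℝ) + 1) ^ 4 * D ^ 2 * (2048 * (4 * h + 6)) := by ring
        rw [e2, e3]
        apply mul_le_mul_of_nonneg_left _ (by positivity)
        linarith
      · rw [not_le] at h2g
        have e : psi h g = -(16 * ((h : ℝ) + 1) * (1 / 2 + 4 * h)) := by
          unfold psi
          rw [if_neg (not_lt.2 hB), min_eq_right h2g.le, max_eq_left (by norm_num), hM]
          ring
        have hD1 : 1 ≤ D := by linarith
        rw [e]
        have hDD : D ≤ D ^ 2 := by nlinarith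
        have h5 : 16 * ((h : ℝ) + 1) * (4 * h + 6) ≤
            g ^ MM h - 1 - 2 * (16 * ((h : ℝ) + 1)) * D +
              -(16 * ((h : ℝ) + 1) * (1 / 2 + 4 * h)) := by
          have h8 : (1 : ℝ) ≤ D ^ 2 := by nlinarith
          have h9 : (4 * (h : ℝ) + 6) ≤ (16 * ((h : ℝ) + 1) - 1) / 2 * D ^ 2 - D - (1 / 2 + 4 * h) := by
            have h11 : (8 * (h : ℝ) + 13 / 2) * 1 ≤ (8 * (h : ℝ) + 13 / 2) * D ^ 2 :=
              mul_le_mul_of_nonneg_left h8 (by positivity)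
            have e11 : (16 * ((h : ℝ) + 1) - 1) / 2 * D ^ 2 = (8 * (h : ℝ) + 13 / 2) * D ^ 2 + D ^ 2 := by
              ring
            rw [e11]
            linarith
          have h10 := mul_le_mul_of_nonneg_left h9 (show 0 ≤ 16 * ((h : ℝ) + 1) by positivity)
          have e12 : 16 * ((h : ℝ) + 1) * ((16 * ((h : ℝ) + 1) - 1) / 2 * D ^ 2 - D - (1 / 2 + 4 * h)) =
            (1 + 16 * ((h : ℝ) + 1) * D +
              16 * ((h : ℝ) + 1) * (16 * ((h : ℝ) + 1) - 1) / 2 * D ^ 2) - 1 -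
              2 * (16 * ((h : ℝ) + 1)) * D + -(16 * ((h : ℝ) + 1) * (1 / 2 + 4 * h)) := by ring
          rw [e12] at h10
          linarith
        have h6 := mul_le_mul_of_nonneg_right h5 hp.le
        refine le_trans ?_ h6
        have h7 : (1 / 2 + 4 * (h : ℝ)) ^ 2 ≤ (4 * ((h : ℝ) + 1)) ^ 2 :=
          pow_le_pow_left₀ (by positivity) (by linarith) 2
        have e1 : (-(16 * ((h : ℝ) + 1) * (1 / 2 + 4 * h))) ^ 2 =
            (16 * ((h : ℝ) + 1)) ^ 2 * (1 / 2 + 4 * (h : ℝ)) ^ 2 := by ring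
        rw [e1]
        refine (mul_le_mul_of_nonneg_left h7 (by positivity)).trans ?_
        have e2 : (16 * ((h : ℝ) + 1)) ^ 2 * (4 * ((h : ℝ) + 1)) ^ 2 =
            ((h : ℝ) + 1) ^ 4 * 4096 := by ring
        have e3 : 16 * ((h : ℝ) + 1) * (4 * h + 6) * (128 * ((h : ℝ) + 1) ^ 3) =
            ((h : ℝ) + 1) ^ 4 * (2048 * (4 * h + 6)) := by ring
        rw [e2, e3]
        apply mul_le_mul_of_nonneg_left _ (by positivity)
        linarith

lemma one_add_sum_le_prod {ι : Type*} (s : Finset ι) (f : ι → ℝ) (hf : ∀ i ∈ s, 0 ≤ f i) :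
    1 + ∑ i ∈ s, f i ≤ ∏ i ∈ s, (1 + f i) := by
  classical
  induction s using Finset.induction_on with
  | empty => simp
  | insert a s ha ih =>
    rw [Finset.sum_insert ha, Finset.prod_insert ha]
    have h1 := ih fun i hi => hf i (Finset.mem_insert_of_mem hi)
    have h2 := hf a (Finset.mem_insert_self _ _)
    have h3 : 0 ≤ ∑ i ∈ s, f i := Finset.sum_nonneg fun i hi => hf i (Finset.mem_insert_of_mem hi)
    nlinarith

/-- the reverse hypercontractive inequality for one block -/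
theorem rh (h : ℕ) (hh : 1 ≤ h) {Ω : Type} [Fintype Ω] [DecidableEq Ω] [Nonempty Ω]
    (W : (Fin h → Ω) → ℝ) (hW : ∀ x, 0 ≤ W x)
    (hW1 : ∑ x, W x = (Fintype.card Ω : ℝ) ^ h)
    (ρ : Fin h → Ω → ℝ)
    (hρ : ∀ i, ∀ F : Ω → ℝ,
      ∑ x, W x * F (x i) = (Fintype.card Ω : ℝ) ^ (h - 1) * ∑ y, ρ i y * F y)
    (η : ℝ) (hη : ∑ i, ∑ y, (ρ i y - 1) ^ 2 ≤ η * Fintype.card Ω)
    (G : Fin h → Ω → ℝ) (hG : ∀ i y, 0 ≤ G i y) :
    (1 - 16 * ((h : ℝ) + 1) ^ 3 * η) * ∏ i, ((∑ y, G i y) / Fintype.card Ω) ^ MM h ≤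
      (∑ x, (1 + W x) / 2 * ∏ i, G i (x i) ^ MM h) / (Fintype.card Ω : ℝ) ^ h := by
  set n : ℝ := (Fintype.card Ω : ℝ) with hn
  have hn0 : 0 < n := by rw [hn]; exact_mod_cast Fintype.card_pos
  have hMM : MM h ≠ 0 := by unfold MM; omega
  have hRHS : 0 ≤ (∑ x, (1 + W x) / 2 * ∏ i, G i (x i) ^ MM h) / n ^ h := by
    refine div_nonneg (Finset.sum_nonneg fun x _ => ?_) (by positivity)
    exact mul_nonneg (by have := hW x; linarith)
      (Finset.prod_nonneg fun i _ => pow_nonneg (hG _ _) _)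
  by_cases hz : ∃ i, ∑ y, G i y = 0
  · obtain ⟨i, hi⟩ := hz
    have : ∏ i, ((∑ y, G i y) / n) ^ MM h = 0 :=
      Finset.prod_eq_zero (Finset.mem_univ i) (by rw [hi, zero_div, zero_pow hMM])
    rw [this, mul_zero]
    exact hRHS
  push Not at hz
  have ha : ∀ i, 0 < (∑ y, G i y) / n := fun i =>
    div_pos (lt_of_le_of_ne (Finset.sum_nonneg fun y _ => hG i y) (Ne.symm (hz i))) hn0
  set a : Fin h → ℝ := fun i => (∑ y, G i y) / n with hadef
  set g : Fin h → Ω → ℝ := fun i y => G i y / a i with hgdef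
  have hg0 : ∀ i y, 0 ≤ g i y := fun i y => div_nonneg (hG i y) (ha i).le
  have hgs : ∀ i, ∑ y, (g i y - 1) = 0 := by
    intro i
    rw [Finset.sum_sub_distrib]
    simp only [hgdef]
    rw [← Finset.sum_div]
    simp only [Finset.sum_const, Finset.card_univ, nsmul_eq_mul, mul_one]
    have h1 : (∑ y, G i y) = a i * n := by
      simp only [hadef]
      field_simp
    rw [h1, mul_div_assoc, mul_comm (a i), div_mul_cancel₀ _ (ha i).ne']
    rw [hn]
    ring
  have hGg : ∀ x : Fin h → Ω, ∏ i, G i (x i) ^ MM h = (∏ i, a i ^ MM h) * ∏ i, g i (x i) ^ MM h := by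
    intro x
    rw [← Finset.prod_mul_distrib]
    refine Finset.prod_congr rfl fun i _ => ?_
    rw [← mul_pow]
    congr 1
    simp only [hgdef]
    rw [mul_div_cancel₀]
    exact (ha i).ne'
  -- the first sum
  set S1 : ℝ := ∑ x : Fin h → Ω, ∏ i, g i (x i) ^ MM h with hS1
  set S2 : ℝ := ∑ x : Fin h → Ω, W x * ∏ i, g i (x i) ^ MM h with hS2
  have hS1' : S1 = ∏ i, ∑ y, g i y ^ MM h := by
    rw [hS1, Finset.prod_univ_sum]
    simp [Fintype.piFinset_univ]
  have hnh : n ^ h = n ^ (h - 1) * n := by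
    rw [← pow_succ]; congr 1; omega
  have hS1b : n ^ h + n ^ (h - 1) * ∑ i, ∑ y, (g i y ^ MM h - 1) ≤ S1 := by
    have h1 : ∀ i, ∑ y, g i y ^ MM h = n * (1 + (∑ y, (g i y ^ MM h - 1)) / n) := by
      intro i
      rw [mul_add, mul_div_cancel₀ _ hn0.ne', Finset.sum_sub_distrib]
      simp [hn]
    rw [hS1', Finset.prod_congr rfl fun i _ => h1 i, Finset.prod_mul_distrib, Finset.prod_const,
      Finset.card_univ, Fintype.card_fin]
    have h2 : 1 + ∑ i, (∑ y, (g i y ^ MM h - 1)) / n ≤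
        ∏ i, (1 + (∑ y, (g i y ^ MM h - 1)) / n) := by
      refine one_add_sum_le_prod _ _ fun i _ => div_nonneg ?_ hn0.le
      have h3 : ∑ y, (MM h : ℝ) * (g i y - 1) ≤ ∑ y, (g i y ^ MM h - 1) := by
        refine Finset.sum_le_sum fun y _ => ?_
        have := one_add_mul_le_pow (show (-2 : ℝ) ≤ g i y - 1 by have := hg0 i y; linarith) (MM h)
        rw [add_sub_cancel] at this
        linarith
      rw [← Finset.mul_sum, hgs, mul_zero] at h3
      exact h3
    have h4 := mul_le_mul_of_nonneg_left h2 (show 0 ≤ n ^ h by positivity)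
    refine le_trans (le_of_eq ?_) h4
    rw [mul_add, mul_one, ← Finset.sum_div, hnh]
    field_simp
  have hS2b : n ^ h + n ^ (h - 1) * ∑ i, ∑ y, ρ i y * psi h (g i y) ≤ S2 := by
    have h1 : ∑ x : Fin h → Ω, W x * (1 + ∑ i, psi h (g i (x i))) ≤ S2 :=
      Finset.sum_le_sum fun x _ =>
        mul_le_mul_of_nonneg_left (tuple_ineq h hh (fun i => g i (x i)) fun i => hg0 i _) (hW x)
    refine le_trans (le_of_eq ?_) h1
    have h7 : ∑ x : Fin h → Ω, W x * (1 + ∑ i, psi h (g i (x i))) =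
        ∑ x : Fin h → Ω, W x + ∑ i, ∑ x : Fin h → Ω, W x * psi h (g i (x i)) := by
      rw [Finset.sum_comm, ← Finset.sum_add_distrib]
      refine Finset.sum_congr rfl fun x _ => ?_
      rw [mul_add, mul_one, Finset.mul_sum]
    have h8 : ∑ i, ∑ x : Fin h → Ω, W x * psi h (g i (x i)) =
        n ^ (h - 1) * ∑ i, ∑ y, ρ i y * psi h (g i y) := by
      rw [Finset.mul_sum]
      exact Finset.sum_congr rfl fun i _ => hρ i fun y => psi h (g i y)
    rw [h7, h8, hW1]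
  have hsum : 2 * n ^ h - 32 * ((h : ℝ) + 1) ^ 3 * η * n ^ h ≤ S1 + S2 := by
    have h1 : -(32 * ((h : ℝ) + 1) ^ 3 * (η * n)) ≤
        ∑ i, ∑ y, ((g i y ^ MM h - 1) + ρ i y * psi h (g i y)) := by
      have h2 : ∀ i y, -(32 * ((h : ℝ) + 1) ^ 3 * (ρ i y - 1) ^ 2) + 2 * MM h * (g i y - 1) ≤
          (g i y ^ MM h - 1) + ρ i y * psi h (g i y) := by
        intro i y
        have := one_ineq h hh (g i y) (hg0 i y) (ρ i y)
        linarith
      have h3 : ∑ i, ∑ y, (-(32 * ((h : ℝ) + 1) ^ 3 * (ρ i y - 1) ^ 2) +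
          2 * MM h * (g i y - 1)) ≤ ∑ i, ∑ y, ((g i y ^ MM h - 1) + ρ i y * psi h (g i y)) :=
        Finset.sum_le_sum fun i _ => Finset.sum_le_sum fun y _ => h2 i y
      refine le_trans ?_ h3
      simp only [Finset.sum_add_distrib, ← Finset.mul_sum, hgs, mul_zero, add_zero,
        Finset.sum_neg_distrib]
      have h4 := mul_le_mul_of_nonneg_left hη (show 0 ≤ 32 * ((h : ℝ) + 1) ^ 3 by positivity)
      linarith
    have h5 : ∑ i, ∑ y, ((g i y ^ MM h - 1) + ρ i y * psi h (g i y)) =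
        ∑ i, ∑ y, (g i y ^ MM h - 1) + ∑ i, ∑ y, ρ i y * psi h (g i y) := by
      simp only [Finset.sum_add_distrib]
    rw [h5] at h1
    have h6 := mul_le_mul_of_nonneg_left h1 (show 0 ≤ n ^ (h - 1) by positivity)
    have e7 : n ^ (h - 1) * -(32 * ((h : ℝ) + 1) ^ 3 * (η * n)) =
        -(32 * ((h : ℝ) + 1) ^ 3 * η * n ^ h) := by rw [hnh]; ring
    rw [e7, mul_add] at h6
    linarith
  have hfin : ∑ x, (1 + W x) / 2 * ∏ i, G i (x i) ^ MM h =
      (∏ i, a i ^ MM h) * ((S1 + S2) / 2) := by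
    rw [hS1, hS2, ← Finset.sum_add_distrib, Finset.sum_div, Finset.mul_sum]
    refine Finset.sum_congr rfl fun x _ => ?_
    rw [hGg]
    ring
  rw [hfin, le_div_iff₀ (by positivity)]
  have ha0 : 0 ≤ ∏ i, a i ^ MM h := Finset.prod_nonneg fun i _ => pow_nonneg (ha i).le _
  have := mul_le_mul_of_nonneg_left hsum ha0
  nlinarith

end Pool.Agent.Q248.HP
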