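import Mathlib
import Pool.Agent.Q248.HP.RH

/-!
# Good rings: weights with a reverse hypercontractive inequality and a small majorant
-/

set_option autoImplicit false

namespace Pool.Agent.Q248.HP

open Finset

/-- There are weights `W` on `R^h` and `V` on `R` with `W x ≤ V (∑ x i ^ h)`, the mean of `V` is at most
`γ`, and the mean of `W ∏ G_i^M` is at least `β ∏ (mean of G_i)^M` for all `G_i ≥ 0`. -/
def Good (h : ℕ) (R : Type) [CommRing R] [Fintype R] (β γ : ℝ) : Prop :=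
  ∃ (W : (Fin h → R) → ℝ) (V : R → ℝ), (∀ x, 0 ≤ W x) ∧ (∀ y, 0 ≤ V y) ∧
    (∀ x, W x ≤ V (∑ i, x i ^ h)) ∧ (∑ y, V y) / (Fintype.card R : ℝ) ≤ γ ∧
    ∀ G : Fin h → R → ℝ, (∀ i y, 0 ≤ G i y) →
      β * ∏ i, ((∑ y, G i y) / (Fintype.card R : ℝ)) ^ MM h ≤
        (∑ x, W x * ∏ i, G i (x i) ^ MM h) / (Fintype.card R : ℝ) ^ h

lemma sum_fin_prod {h : ℕ} {R S : Type} [Fintype R] [Fintype S]
    (f : (Fin h → R × S) → ℝ) :
    ∑ x, f x = ∑ x₁ : Fin h → R, ∑ x₂ : Fin h → S, f fun i => (x₁ i, x₂ i) := by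
  classical
  rw [← Fintype.sum_prod_type']
  exact Fintype.sum_equiv (Equiv.arrowProdEquivProdArrow (Fin h) (fun _ => R) (fun _ => S)) _ _
    fun x => rfl

theorem good_prod {h : ℕ} {R S : Type} [CommRing R] [Fintype R] [CommRing S] [Fintype S]
    {β₁ β₂ γ₁ γ₂ : ℝ} (hR : Good h R β₁ γ₁) (hS : Good h S β₂ γ₂) (hβ : 0 ≤ β₂) :
    Good h (R × S) (β₁ * β₂) (γ₁ * γ₂) := by
  classical
  obtain ⟨W₁, V₁, hW₁, hV₁, hWV₁, hγ₁, hG₁⟩ := hR
  obtain ⟨W₂, V₂, hW₂, hV₂, hWV₂, hγ₂, hG₂⟩ := hS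
  have hr : (0 : ℝ) < (Fintype.card R : ℝ) := by exact_mod_cast Fintype.card_pos
  have hs : (0 : ℝ) < (Fintype.card S : ℝ) := by exact_mod_cast Fintype.card_pos
  refine ⟨fun x => W₁ (fun i => (x i).1) * W₂ (fun i => (x i).2), fun y => V₁ y.1 * V₂ y.2,
    fun x => mul_nonneg (hW₁ _) (hW₂ _), fun y => mul_nonneg (hV₁ _) (hV₂ _), fun x => ?_, ?_,
    fun G hG => ?_⟩
  · have h1 : (∑ i, x i ^ h).1 = ∑ i, (x i).1 ^ h := by
      rw [Prod.fst_sum]; rfl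
    have h2 : (∑ i, x i ^ h).2 = ∑ i, (x i).2 ^ h := by
      rw [Prod.snd_sum]; rfl
    simp only
    rw [h1, h2]
    exact mul_le_mul (hWV₁ _) (hWV₂ _) (hW₂ _) (hV₁ _)
  · have h1 : ∑ y : R × S, V₁ y.1 * V₂ y.2 = (∑ y, V₁ y) * ∑ y, V₂ y := by
      rw [Fintype.sum_prod_type, Finset.sum_mul_sum]
    rw [h1, Fintype.card_prod, Nat.cast_mul, mul_div_mul_comm]
    exact mul_le_mul hγ₁ hγ₂ (div_nonneg (Finset.sum_nonneg fun y _ => hV₂ y) hs.le)
      ((div_nonneg (Finset.sum_nonneg fun y _ => hV₁ y) hr.le).trans hγ₁)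
  · rw [sum_fin_prod]
    set G' : Fin h → R → ℝ := fun i r => (∑ s, G i (r, s)) / (Fintype.card S : ℝ) with hG'
    have hG'0 : ∀ i r, 0 ≤ G' i r := fun i r =>
      div_nonneg (Finset.sum_nonneg fun s _ => hG i _) hs.le
    have h1 := hG₁ G' hG'0
    have h2 : ∀ x₁ : Fin h → R, β₂ * ∏ i, G' i (x₁ i) ^ MM h ≤
        (∑ x₂ : Fin h → S, W₂ x₂ * ∏ i, G i (x₁ i, x₂ i) ^ MM h) / (Fintype.card S : ℝ) ^ h :=
      fun x₁ => hG₂ (fun i s => G i (x₁ i, s)) fun i s => hG i _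
    have h3 : ∀ i, (∑ y : R × S, G i y) / ((Fintype.card (R × S) : ℕ) : ℝ) =
        (∑ r, G' i r) / (Fintype.card R : ℝ) := by
      intro i
      rw [Fintype.sum_prod_type, Fintype.card_prod, Nat.cast_mul]
      simp only [hG']
      rw [← Finset.sum_div, div_div, mul_comm (Fintype.card S : ℝ)]
    rw [Finset.prod_congr rfl fun i _ => by rw [h3 i], Fintype.card_prod, Nat.cast_mul, mul_pow]
    calc β₁ * β₂ * ∏ i, ((∑ r, G' i r) / (Fintype.card R : ℝ)) ^ MM h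
        = β₂ * (β₁ * ∏ i, ((∑ r, G' i r) / (Fintype.card R : ℝ)) ^ MM h) := by ring
      _ ≤ β₂ * ((∑ x₁, W₁ x₁ * ∏ i, G' i (x₁ i) ^ MM h) / (Fintype.card R : ℝ) ^ h) :=
          mul_le_mul_of_nonneg_left h1 hβ
      _ = (∑ x₁, W₁ x₁ * (β₂ * ∏ i, G' i (x₁ i) ^ MM h)) / (Fintype.card R : ℝ) ^ h := by
          rw [← mul_div_assoc, Finset.mul_sum]
          congr 1
          refine Finset.sum_congr rfl fun x _ => by ring
      _ ≤ (∑ x₁, W₁ x₁ * ((∑ x₂ : Fin h → S, W₂ x₂ * ∏ i, G i (x₁ i, x₂ i) ^ MM h) /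
            (Fintype.card S : ℝ) ^ h)) / (Fintype.card R : ℝ) ^ h := by
          refine div_le_div_of_nonneg_right (Finset.sum_le_sum fun x _ => ?_) (by positivity)
          exact mul_le_mul_of_nonneg_left (h2 x) (hW₁ x)
      _ = _ := by
          have e1 : ∀ x₁ : Fin h → R, W₁ x₁ * ((∑ x₂ : Fin h → S, W₂ x₂ *
              ∏ i, G i (x₁ i, x₂ i) ^ MM h) / (Fintype.card S : ℝ) ^ h) =
              (∑ x₂ : Fin h → S, W₁ x₁ * W₂ x₂ * ∏ i, G i (x₁ i, x₂ i) ^ MM h) /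
                (Fintype.card S : ℝ) ^ h := by
            intro x₁
            rw [← mul_div_assoc, Finset.mul_sum]
            congr 1
            exact Finset.sum_congr rfl fun x₂ _ => by ring
          rw [Finset.sum_congr rfl fun x₁ _ => e1 x₁, ← Finset.sum_div, div_div,
            mul_comm ((Fintype.card S : ℝ) ^ h)]

theorem good_equiv {h : ℕ} {R S : Type} [CommRing R] [Fintype R] [CommRing S] [Fintype S]
    {β γ : ℝ} (e : R ≃+* S) (hR : Good h R β γ) : Good h S β γ := by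
  classical
  obtain ⟨W, V, hW, hV, hWV, hγ, hG⟩ := hR
  have hc : Fintype.card S = Fintype.card R := (Fintype.card_congr e.toEquiv).symm
  refine ⟨fun x => W fun i => e.symm (x i), fun y => V (e.symm y), fun x => hW _, fun y => hV _,
    fun x => ?_, ?_, fun G hG0 => ?_⟩
  · refine (hWV _).trans (le_of_eq ?_)
    congr 1
    simp
  · rw [hc, show ∑ y, V (e.symm y) = ∑ y, V y from
      Fintype.sum_equiv e.symm.toEquiv _ _ fun y => rfl]
    exact hγ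
  · have h1 := hG (fun i r => G i (e r)) fun i r => hG0 i _
    have h2 : ∀ i, ∑ r, G i (e r) = ∑ y, G i y := fun i =>
      Fintype.sum_equiv e.toEquiv _ _ fun r => rfl
    rw [hc, Finset.prod_congr rfl fun i _ => by rw [← h2 i]]
    refine h1.trans (le_of_eq ?_)
    congr 1
    refine Fintype.sum_equiv (Equiv.piCongrRight fun _ => e.toEquiv) _ _ fun x => ?_
    simp [Equiv.piCongrRight]

instance neZeroMul (m n : ℕ) [NeZero m] [NeZero n] : NeZero (m * n) :=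
  ⟨Nat.mul_ne_zero (NeZero.ne m) (NeZero.ne n)⟩

theorem good_mul {h m n : ℕ} [NeZero m] [NeZero n] (hmn : m.Coprime n) {β₁ β₂ γ₁ γ₂ : ℝ}
    (hR : Good h (ZMod m) β₁ γ₁) (hS : Good h (ZMod n) β₂ γ₂) (hβ : 0 ≤ β₂) :
    Good h (ZMod (m * n)) (β₁ * β₂) (γ₁ * γ₂) :=
  good_equiv (ZMod.chineseRemainder hmn).symm (good_prod hR hS hβ)

theorem good_one (h : ℕ) : Good h (ZMod 1) 1 1 := by
  refine ⟨fun _ => 1, fun _ => 1, fun _ => zero_le_one, fun _ => zero_le_one, fun _ => le_rfl,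
    by simp, fun G _ => ?_⟩
  simp [Subsingleton.elim _ (0 : ZMod 1)]

end Pool.Agent.Q248.HP
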