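import Mathlib

/-!
# The local weight at a prime `p`
-/

set_option autoImplicit false

namespace Pool.Agent.Q248.HP

open Finset

/-- the number of solutions in units -/
noncomputable def NS (h p : ℕ) : ℕ :=
  Nat.card {x : Fin h → ZMod (p ^ h) // (∀ i, IsUnit (x i)) ∧ ∑ i, x i ^ h = 0}

open Classical in
/-- the weight of a tuple: all coordinates divisible by `p`, or units with `∑ z i ^ h = 0` -/
noncomputable def av (h p : ℕ) (z : Fin h → ZMod (p ^ h)) : ℝ :=
  (if ∀ i, ¬ IsUnit (z i) then (p : ℝ) ^ h else 0) +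
    (if (∀ i, IsUnit (z i)) ∧ ∑ i, z i ^ h = 0 then (p : ℝ) ^ (h * h) / (NS h p : ℝ) else 0)

open Classical in
/-- the marginal density -/
noncomputable def rr (h p : ℕ) (t : ZMod (p ^ h)) : ℝ :=
  if IsUnit t then (p : ℝ) / (p - 1) else p

variable {h p : ℕ}

lemma av_nonneg (z : Fin h → ZMod (p ^ h)) : 0 ≤ av h p z := by
  classical
  unfold av
  positivity

lemma nonunit_pow (hp : p.Prime) {t : ZMod (p ^ h)} (ht : ¬ IsUnit t) : t ^ h = 0 := by
  have : Fact p.Prime := ⟨hp⟩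
  have h1 : ¬ (t.val).Coprime (p ^ h) := by
    rw [← ZMod.isUnit_iff_coprime, ZMod.natCast_zmod_val]
    exact ht
  have h2 : p ∣ t.val := by
    by_contra h3
    exact h1 (Nat.Coprime.pow_right _ ((Nat.Prime.coprime_iff_not_dvd hp).2 h3).symm)
  have h3 : (p ^ h) ∣ t.val ^ h := pow_dvd_pow_of_dvd h2 h
  have h4 : ((t.val ^ h : ℕ) : ZMod (p ^ h)) = 0 := (ZMod.natCast_eq_zero_iff _ _).2 h3
  rw [Nat.cast_pow, ZMod.natCast_zmod_val] at h4
  exact h4

open Classical in
lemma av_le (hp : p.Prime) (hh : 1 ≤ h)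
    (hN : (3 / 4 : ℝ) * (p : ℝ) ^ (h * (h - 1)) ≤ (NS h p : ℝ)) (z : Fin h → ZMod (p ^ h)) :
    av h p z ≤ 4 / 3 * (p : ℝ) ^ h * (if ∑ i, z i ^ h = 0 then 1 else 0) := by
  have hp0 : (0 : ℝ) < p := by exact_mod_cast hp.pos
  unfold av
  have hhh : h * h = h * (h - 1) + h := by
    obtain ⟨k, rfl⟩ : ∃ k, h = k + 1 := ⟨h - 1, by omega⟩
    simp only [Nat.add_sub_cancel]
    ring
  by_cases h1 : ∀ i, ¬ IsUnit (z i)
  · have h2 : ∑ i, z i ^ h = 0 := Finset.sum_eq_zero fun i _ => nonunit_pow hp (h1 i)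
    have h3 : ¬ ∀ i, IsUnit (z i) := fun h4 => h1 ⟨0, hh⟩ (h4 ⟨0, hh⟩)
    rw [if_pos h1, if_neg (fun h4 => h3 h4.1), if_pos h2]
    have : (0 : ℝ) ≤ (p : ℝ) ^ h := by positivity
    linarith
  · rw [if_neg h1]
    by_cases h2 : (∀ i, IsUnit (z i)) ∧ ∑ i, z i ^ h = 0
    · rw [if_pos h2, if_pos h2.2, zero_add, mul_one]
      have hN0 : (0 : ℝ) < NS h p := lt_of_lt_of_le (by positivity) hN
      rw [div_le_iff₀ hN0, hhh, pow_add]
      have h5 := mul_le_mul_of_nonneg_left hN (show (0 : ℝ) ≤ 4 / 3 * (p : ℝ) ^ h by positivity)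
      linarith
    · rw [if_neg h2]
      split_ifs <;> simp

open Classical in
lemma card_unit [NeZero (p ^ h)] :
    ((Finset.univ : Finset (ZMod (p ^ h))).filter fun t => IsUnit t).card = (p ^ h).totient := by
  rw [← ZMod.card_units_eq_totient, ← Finset.card_univ,
    ← Finset.card_image_of_injective (f := fun u : (ZMod (p ^ h))ˣ => (u : ZMod (p ^ h))) _
      Units.val_injective]
  congr 1
  ext t
  simp only [Finset.mem_filter, Finset.mem_univ, true_and, Finset.mem_image]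
  exact ⟨fun ⟨u, hu⟩ => ⟨u, hu⟩, fun ⟨u, hu⟩ => ⟨u, hu⟩⟩

open Classical in
lemma card_nonunit (hp : p.Prime) (hh : 1 ≤ h) [NeZero (p ^ h)] :
    ((Finset.univ : Finset (ZMod (p ^ h))).filter fun t => ¬ IsUnit t).card = p ^ (h - 1) := by
  have h1 := Finset.card_filter_add_card_filter_not (s := (Finset.univ : Finset (ZMod (p ^ h))))
    (fun t => IsUnit t)
  rw [card_unit, Nat.totient_prime_pow hp (by omega), Finset.card_univ, ZMod.card] at h1
  have h2 : p ^ h = p ^ (h - 1) * (p - 1) + p ^ (h - 1) := by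
    have h3 : p ^ h = p ^ (h - 1) * p := by
      rw [← pow_succ]; congr 1; omega
    have h4 : p = (p - 1) + 1 := by have := hp.one_lt; omega
    rw [h3]
    nth_rw 2 [h4]
    ring
  omega

open Classical in
lemma sum_nonunit (hp : p.Prime) (hh : 1 ≤ h) [NeZero (p ^ h)] (i : Fin h) (t : ZMod (p ^ h)) :
    ∑ z : Fin h → ZMod (p ^ h), (if z i = t then
      (if ∀ j, ¬ IsUnit (z j) then (p : ℝ) ^ h else 0) else 0) =
      ((p : ℝ) ^ h) ^ (h - 1) * (if IsUnit t then 0 else (p : ℝ)) := by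
  have hp0 : (p : ℝ) ≠ 0 := by exact_mod_cast hp.ne_zero
  -- write the summand as a product
  have h1 : ∀ z : Fin h → ZMod (p ^ h), (if z i = t then
      (if ∀ j, ¬ IsUnit (z j) then (p : ℝ) ^ h else 0) else 0) =
      (p : ℝ) ^ h * ∏ j, (if (¬ IsUnit (z j)) ∧ (j = i → z j = t) then (1 : ℝ) else 0) := by
    intro z
    rw [Finset.prod_ite_zero]
    simp only [Finset.mem_univ, true_imp_iff, Finset.prod_const_one]
    by_cases h2 : ∀ j, ¬ IsUnit (z j) ∧ (j = i → z j = t)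
    · rw [if_pos h2, if_pos ((h2 i).2 rfl), if_pos fun j => (h2 j).1, mul_one]
    · rw [if_neg h2, mul_zero]
      by_cases h3 : z i = t
      · rw [if_pos h3, if_neg]
        intro h4
        exact h2 fun j => ⟨h4 j, fun e => by rw [e]; exact h3⟩
      · rw [if_neg h3]
  rw [Finset.sum_congr rfl fun z _ => h1 z, ← Finset.mul_sum]
  have h2 : ∑ z : Fin h → ZMod (p ^ h), ∏ j,
      (if (¬ IsUnit (z j)) ∧ (j = i → z j = t) then (1 : ℝ) else 0) =
      ∏ j : Fin h, ∑ s : ZMod (p ^ h),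
        (if (¬ IsUnit s) ∧ (j = i → s = t) then (1 : ℝ) else 0) := by
    rw [Finset.prod_univ_sum]
    simp [Fintype.piFinset_univ]
  rw [h2, ← Finset.mul_prod_erase _ _ (Finset.mem_univ i)]
  have h3 : ∀ j ∈ Finset.univ.erase i, ∑ s : ZMod (p ^ h),
      (if (¬ IsUnit s) ∧ (j = i → s = t) then (1 : ℝ) else 0) = (p : ℝ) ^ (h - 1) := by
    intro j hj
    have hne : j ≠ i := (Finset.mem_erase.1 hj).1
    have h4 : ∀ s : ZMod (p ^ h), (¬ IsUnit s ∧ (j = i → s = t)) ↔ ¬ IsUnit s := fun s =>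
      ⟨fun h => h.1, fun h => ⟨h, fun e => absurd e hne⟩⟩
    simp only [h4]
    rw [Finset.sum_boole, card_nonunit hp hh]
    push_cast
    rfl
  rw [Finset.prod_congr rfl h3, Finset.prod_const, Finset.card_erase_of_mem (Finset.mem_univ i),
    Finset.card_univ, Fintype.card_fin]
  have h5 : ∑ s : ZMod (p ^ h), (if (¬ IsUnit s) ∧ (i = i → s = t) then (1 : ℝ) else 0) =
      if IsUnit t then 0 else 1 := by
    by_cases ht : IsUnit t
    · rw [if_pos ht]
      refine Finset.sum_eq_zero fun s _ => if_neg ?_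
      rintro ⟨h6, h7⟩
      exact h6 ((h7 rfl).symm ▸ ht)
    · rw [if_neg ht, Finset.sum_eq_single t]
      · rw [if_pos ⟨ht, fun _ => rfl⟩]
      · intro s _ hs
        exact if_neg fun h6 => hs (h6.2 rfl)
      · intro h6
        exact absurd (Finset.mem_univ _) h6
  rw [h5]
  split_ifs with ht
  · ring
  · rw [one_mul, ← pow_mul, ← pow_mul, ← pow_add, ← pow_succ]
    congr 1
    obtain ⟨k, rfl⟩ : ∃ k, h = k + 1 := ⟨h - 1, by omega⟩
    simp only [Nat.add_sub_cancel]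
    ring

open Classical in
lemma sum_sol (hp : p.Prime) (hh : 1 ≤ h) [NeZero (p ^ h)] (i : Fin h) (t : ZMod (p ^ h)) :
    (∑ z : Fin h → ZMod (p ^ h), (if z i = t then
      (if (∀ j, IsUnit (z j)) ∧ ∑ j, z j ^ h = 0 then (1 : ℝ) else 0) else 0)) *
        ((p : ℝ) ^ (h - 1) * (p - 1)) =
      (NS h p : ℝ) * (if IsUnit t then 1 else 0) := by
  -- the count for `t`
  set c : ZMod (p ^ h) → ℝ := fun t => ∑ z : Fin h → ZMod (p ^ h), (if z i = t then
      (if (∀ j, IsUnit (z j)) ∧ ∑ j, z j ^ h = 0 then (1 : ℝ) else 0) else 0) with hc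
  have h1 : ∀ t, ¬ IsUnit t → c t = 0 := by
    intro t ht
    simp only [hc]
    refine Finset.sum_eq_zero fun z _ => ?_
    by_cases h2 : z i = t
    · rw [if_pos h2, if_neg]
      rintro ⟨h3, _⟩
      exact ht (h2 ▸ h3 i)
    · rw [if_neg h2]
  have h2 : ∀ u : (ZMod (p ^ h))ˣ, c u = c 1 := by
    intro u
    simp only [hc]
    refine (Fintype.sum_equiv (Equiv.piCongrRight fun _ => Units.mulLeft u) _ _ fun z => ?_).symm
    simp only [Equiv.piCongrRight_apply, Pi.map_apply, Units.mulLeft_apply]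
    have h3 : (↑u * z i = (u : ZMod (p ^ h))) ↔ z i = 1 := by
      constructor
      · intro h4
        have h5 := congrArg (fun w => (↑(u⁻¹) : ZMod (p ^ h)) * w) h4
        simpa using h5
      · intro h4
        rw [h4, mul_one]
    have h4 : (∀ j, IsUnit (↑u * z j)) ↔ ∀ j, IsUnit (z j) := by
      refine forall_congr' fun j => ?_
      exact Units.isUnit_units_mul u (z j)
    have h5 : (∑ j, (↑u * z j) ^ h = 0) ↔ ∑ j, z j ^ h = 0 := by
      have h6 : ∑ j, ((u : ZMod (p ^ h)) * z j) ^ h = (↑(u ^ h) : ZMod (p ^ h)) * ∑ j, z j ^ h := by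
        rw [Finset.mul_sum]
        refine Finset.sum_congr rfl fun j _ => ?_
        rw [mul_pow]
        push_cast
        rfl
      rw [h6]
      exact Units.mul_right_eq_zero _
    simp only [h3, h4, h5]
  have h3 : ∑ t, c t = (NS h p : ℝ) := by
    simp only [hc]
    rw [Finset.sum_comm]
    simp only [Finset.sum_ite_eq, Finset.mem_univ, if_true]
    rw [Finset.sum_boole, NS, Nat.card_eq_fintype_card, Fintype.card_subtype]
  have h4 : ∑ t, c t = ((p : ℝ) ^ (h - 1) * (p - 1)) * c 1 := by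
    rw [← Finset.sum_filter_add_sum_filter_not _ (fun t => IsUnit t)]
    rw [Finset.sum_eq_zero (s := Finset.univ.filter fun t => ¬ IsUnit t) fun t ht =>
      h1 t (Finset.mem_filter.1 ht).2, add_zero]
    rw [Finset.sum_congr rfl (g := fun _ => c 1) fun t ht => by
      obtain ⟨u, hu⟩ := (Finset.mem_filter.1 ht).2
      rw [← hu]
      exact h2 u]
    rw [Finset.sum_const, card_unit, Nat.totient_prime_pow hp (by omega), nsmul_eq_mul]
    push_cast [hp.one_lt.le]
    ring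
  show c t * _ = _
  by_cases ht : IsUnit t
  · rw [if_pos ht, mul_one, ← h3, h4]
    obtain ⟨u, rfl⟩ := ht
    rw [h2 u]
    ring
  · rw [if_neg ht, h1 t ht]
    ring

open Classical in
/-- the marginals of the local weight -/
lemma av_marg (hp : p.Prime) (hh : 1 ≤ h) [NeZero (p ^ h)] (hN : 0 < NS h p) (i : Fin h)
    (t : ZMod (p ^ h)) :
    ∑ z : Fin h → ZMod (p ^ h), (if z i = t then av h p z else 0) =
      ((p : ℝ) ^ h) ^ (h - 1) * rr h p t := by
  have hp0 : (0 : ℝ) < p := by exact_mod_cast hp.pos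
  have hp1 : (1 : ℝ) < p := by exact_mod_cast hp.one_lt
  have hN0 : (0 : ℝ) < NS h p := by exact_mod_cast hN
  have h1 : ∀ z : Fin h → ZMod (p ^ h), (if z i = t then av h p z else 0) =
      (if z i = t then (if ∀ j, ¬ IsUnit (z j) then (p : ℝ) ^ h else 0) else 0) +
      ((p : ℝ) ^ (h * h) / (NS h p : ℝ)) * (if z i = t then
        (if (∀ j, IsUnit (z j)) ∧ ∑ j, z j ^ h = 0 then (1 : ℝ) else 0) else 0) := by
    intro z
    unfold av
    split_ifs <;> simp
  rw [Finset.sum_congr rfl fun z _ => h1 z, Finset.sum_add_distrib, ← Finset.mul_sum,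
    sum_nonunit hp hh i t]
  have h2 := sum_sol hp hh i t
  set s := ∑ z : Fin h → ZMod (p ^ h), (if z i = t then
        (if (∀ j, IsUnit (z j)) ∧ ∑ j, z j ^ h = 0 then (1 : ℝ) else 0) else 0) with hs
  have hne : ((p : ℝ) ^ (h - 1) * (p - 1)) ≠ 0 := by
    have : (0 : ℝ) < p - 1 := by linarith
    positivity
  have h3 : s = (NS h p : ℝ) * (if IsUnit t then 1 else 0) / ((p : ℝ) ^ (h - 1) * (p - 1)) := by
    rw [eq_div_iff hne, h2]
  rw [h3]
  unfold rr
  by_cases ht : IsUnit t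
  · rw [if_pos ht, if_pos ht, if_pos ht]
    have h4 : (p : ℝ) ^ (h * h) = ((p : ℝ) ^ h) ^ (h - 1) * ((p : ℝ) ^ (h - 1) * p) := by
      rw [← pow_mul, ← pow_succ, ← pow_add]
      congr 1
      obtain ⟨k, rfl⟩ : ∃ k, h = k + 1 := ⟨h - 1, by omega⟩
      simp only [Nat.add_sub_cancel]
      ring
    rw [h4]
    have : (p : ℝ) - 1 ≠ 0 := by linarith
    field_simp
    ring
  · rw [if_neg ht, if_neg ht, if_neg ht]
    ring

open Classical in
lemma rr_sum (hp : p.Prime) (hh : 1 ≤ h) [NeZero (p ^ h)] :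
    ∑ t : ZMod (p ^ h), (rr h p t / 2 - 1) = 0 := by
  have hp1 : (1 : ℝ) < p := by exact_mod_cast hp.one_lt
  rw [← Finset.sum_filter_add_sum_filter_not _ (fun t => IsUnit t)]
  rw [Finset.sum_congr rfl (g := fun _ => (p : ℝ) / (p - 1) / 2 - 1) fun t ht => by
    unfold rr; rw [if_pos (Finset.mem_filter.1 ht).2]]
  rw [Finset.sum_congr (s₁ := Finset.univ.filter fun t => ¬ IsUnit t) rfl
    (g := fun _ => (p : ℝ) / 2 - 1) fun t ht => by
    unfold rr; rw [if_neg (Finset.mem_filter.1 ht).2]]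
  rw [Finset.sum_const, Finset.sum_const, card_unit, card_nonunit hp hh,
    Nat.totient_prime_pow hp (by omega), nsmul_eq_mul, nsmul_eq_mul]
  push_cast [hp.one_lt.le]
  have : (p : ℝ) - 1 ≠ 0 := by linarith
  field_simp
  ring

open Classical in
lemma rr_sq (hp : p.Prime) (hh : 1 ≤ h) [NeZero (p ^ h)] :
    ∑ t : ZMod (p ^ h), (rr h p t / 2 - 1) ^ 2 ≤ (p : ℝ) ^ h * (p / 4) := by
  have hp1 : (1 : ℝ) < p := by exact_mod_cast hp.one_lt
  rw [← Finset.sum_filter_add_sum_filter_not _ (fun t => IsUnit t)]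
  rw [Finset.sum_congr rfl (g := fun _ => ((p : ℝ) / (p - 1) / 2 - 1) ^ 2) fun t ht => by
    unfold rr; rw [if_pos (Finset.mem_filter.1 ht).2]]
  rw [Finset.sum_congr (s₁ := Finset.univ.filter fun t => ¬ IsUnit t) rfl
    (g := fun _ => ((p : ℝ) / 2 - 1) ^ 2) fun t ht => by
    unfold rr; rw [if_neg (Finset.mem_filter.1 ht).2]]
  rw [Finset.sum_const, Finset.sum_const, card_unit, card_nonunit hp hh,
    Nat.totient_prime_pow hp (by omega), nsmul_eq_mul, nsmul_eq_mul]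
  push_cast [hp.one_lt.le]
  have h1 : (0 : ℝ) < (p : ℝ) - 1 := by linarith
  have h2 : (p : ℝ) ^ h = (p : ℝ) ^ (h - 1) * p := by
    rw [← pow_succ]; congr 1; omega
  rw [h2]
  have e : (p : ℝ) ^ (h - 1) * (p - 1) * ((p : ℝ) / (p - 1) / 2 - 1) ^ 2 +
      (p : ℝ) ^ (h - 1) * ((p : ℝ) / 2 - 1) ^ 2 =
      (p : ℝ) ^ (h - 1) * (p * (p - 2) ^ 2 / (4 * (p - 1))) := by
    field_simp
    ring
  rw [e, mul_assoc]
  refine mul_le_mul_of_nonneg_left ?_ (by positivity)
  rw [div_le_iff₀ (by positivity)]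
  have hp2 : (2 : ℝ) ≤ p := by exact_mod_cast hp.two_le
  have h3 : ((p : ℝ) - 2) ^ 2 ≤ p * (p - 1) := by nlinarith
  nlinarith

end Pool.Agent.Q248.HP
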