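import Mathlib
import Pool.Agent.Q248.HP.Good
import Pool.Agent.Q248.HP.Loc

/-!
# The block of a finite set of primes
-/

set_option autoImplicit false

namespace Pool.Agent.Q248.HP

open Finset

section fiber

variable {ι : Type} [Fintype ι] [DecidableEq ι] {T : ι → Type} [∀ a, Fintype (T a)]
  [∀ a, CommRing (T a)] [∀ a, DecidableEq (T a)]

/-- the fibres of a coordinate have the same size -/
lemma fiber_card (a : ι) (t : T a) :
    ((Finset.univ : Finset (∀ a, T a)).filter fun y => y a = t).card * Fintype.card (T a) =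
      Fintype.card (∀ a, T a) := by
  have h1 : ∀ s : T a, ((Finset.univ : Finset (∀ a, T a)).filter fun y => y a = s).card =
      ((Finset.univ : Finset (∀ a, T a)).filter fun y => y a = t).card := by
    intro s
    refine Finset.card_bij' (fun y _ => y + Pi.single a (t - s)) (fun y _ => y - Pi.single a (t - s))
      ?_ ?_ ?_ ?_
    · intro y hy
      rw [Finset.mem_filter] at hy ⊢
      refine ⟨Finset.mem_univ _, ?_⟩
      simp [hy.2]
    · intro y hy
      rw [Finset.mem_filter] at hy ⊢
      refine ⟨Finset.mem_univ _, ?_⟩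
      simp [hy.2]
    · intro y _
      simp
    · intro y _
      simp
  have h2 : ∑ s : T a, ((Finset.univ : Finset (∀ a, T a)).filter fun y => y a = s).card =
      Fintype.card (∀ a, T a) := by
    rw [← Finset.card_univ, Finset.card_eq_sum_card_fiberwise (f := fun y : (∀ a, T a) => y a)
      (t := Finset.univ) (fun _ _ => Finset.mem_coe.2 (Finset.mem_univ _))]
  rw [← h2, Finset.sum_congr rfl fun s _ => h1 s, Finset.sum_const, Finset.card_univ, smul_eq_mul,
    mul_comm]

lemma fiber_sum {h : ℕ} (a : ι) (f : (Fin h → T a) → ℝ) (j : Fin h) (F : (∀ a, T a) → ℝ) :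
    ∑ x : Fin h → ∀ a, T a, f (fun k => x k a) * F (x j) =
      ((Fintype.card (∀ a, T a) : ℝ) / (Fintype.card (T a) : ℝ)) ^ (h - 1) *
        ∑ y : ∀ a, T a, F y * ∑ z : Fin h → T a, (if z j = y a then f z else 0) := by
  have hT : (0 : ℝ) < (Fintype.card (T a) : ℝ) := by exact_mod_cast Fintype.card_pos
  set K : ℝ := (Fintype.card (∀ a, T a) : ℝ) / (Fintype.card (T a) : ℝ) with hK
  have hK' : ∀ t : T a, (((Finset.univ : Finset (∀ a, T a)).filter fun y => y a = t).card : ℝ) = K := by
    intro t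
    rw [hK, eq_div_iff hT.ne', ← Nat.cast_mul, fiber_card]
  -- step 1
  have h1 : ∑ x : Fin h → ∀ a, T a, f (fun k => x k a) * F (x j) =
      ∑ z : Fin h → T a, f z * ∑ x : Fin h → ∀ a, T a,
        (if (fun k => x k a) = z then F (x j) else 0) := by
    simp only [Finset.mul_sum]
    rw [Finset.sum_comm]
    refine Finset.sum_congr rfl fun x _ => ?_
    rw [Finset.sum_eq_single fun k => x k a]
    · rw [if_pos rfl]
    · intro z _ hz
      rw [if_neg (Ne.symm hz), mul_zero]
    · intro hz
      exact absurd (Finset.mem_univ _) hz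
  have h2 : ∀ z : Fin h → T a, ∑ x : Fin h → ∀ a, T a,
      (if (fun k => x k a) = z then F (x j) else 0) =
      K ^ (h - 1) * ∑ y : ∀ a, T a, (if y a = z j then F y else 0) := by
    intro z
    have h3 : ∀ x : Fin h → ∀ a, T a, (if (fun k => x k a) = z then F (x j) else 0) =
        ∏ k, (if x k a = z k then (if k = j then F (x k) else 1) else 0) := by
      intro x
      rw [Finset.prod_ite_zero]
      by_cases h4 : (fun k => x k a) = z
      · rw [if_pos h4, if_pos fun k _ => congrFun h4 k, Finset.prod_ite_eq' Finset.univ j fun k => F (x k)]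
        simp
      · rw [if_neg h4, if_neg]
        intro h5
        exact h4 (funext fun k => h5 k (Finset.mem_univ k))
    rw [Finset.sum_congr rfl fun x _ => h3 x]
    have h4 : ∑ x : Fin h → ∀ a, T a,
        ∏ k, (if x k a = z k then (if k = j then F (x k) else 1) else 0) =
        ∏ k : Fin h, ∑ y : ∀ a, T a, (if y a = z k then (if k = j then F y else 1) else 0) := by
      rw [Finset.prod_univ_sum]
      simp [Fintype.piFinset_univ]
    rw [h4, ← Finset.mul_prod_erase _ _ (Finset.mem_univ j), mul_comm]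
    congr 1
    · rw [Finset.prod_congr rfl (g := fun _ => K) fun k hk => by
        have hne : k ≠ j := (Finset.mem_erase.1 hk).1
        simp only [if_neg hne]
        rw [Finset.sum_boole, hK']]
      rw [Finset.prod_const, Finset.card_erase_of_mem (Finset.mem_univ j), Finset.card_univ,
        Fintype.card_fin]
    · simp
  rw [h1, Finset.sum_congr rfl fun z _ => by rw [h2 z], Finset.mul_sum]
  simp only [Finset.mul_sum]
  rw [Finset.sum_comm]
  refine Finset.sum_congr rfl fun y _ => ?_
  refine Finset.sum_congr rfl fun z _ => ?_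
  by_cases h5 : y a = z j
  · rw [if_pos h5, if_pos h5.symm]
    ring
  · rw [if_neg h5, if_neg (Ne.symm h5)]
    ring

/-- the sum of a function of one coordinate -/
lemma fiber_one (a : ι) (f : T a → ℝ) :
    ∑ y : ∀ a, T a, f (y a) =
      ((Fintype.card (∀ a, T a) : ℝ) / (Fintype.card (T a) : ℝ)) * ∑ t, f t := by
  have hT : (0 : ℝ) < (Fintype.card (T a) : ℝ) := by exact_mod_cast Fintype.card_pos
  have h1 : ∑ y : ∀ a, T a, f (y a) =
      ∑ t : T a, (((Finset.univ : Finset (∀ a, T a)).filter fun y => y a = t).card : ℝ) * f t := by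
    rw [← Finset.sum_fiberwise (Finset.univ : Finset (∀ a, T a)) (fun y => y a)]
    refine Finset.sum_congr rfl fun t _ => ?_
    rw [Finset.sum_congr rfl (g := fun _ => f t) fun y hy => by rw [(Finset.mem_filter.1 hy).2],
      Finset.sum_const, nsmul_eq_mul]
  rw [h1, Finset.mul_sum]
  refine Finset.sum_congr rfl fun t _ => ?_
  congr 1
  rw [eq_div_iff hT.ne', ← Nat.cast_mul, fiber_card]

omit [∀ a, DecidableEq (T a)] in
/-- independence of two coordinates -/
lemma fiber_two (a b : ι) (hab : a ≠ b) (f : T a → ℝ) (g : T b → ℝ) (hg : ∑ t, g t = 0) :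
    ∑ y : ∀ a, T a, f (y a) * g (y b) = 0 := by
  -- translate the coordinate `b`: sum over fibres of `a`
  have hT : (0 : ℝ) < (Fintype.card (T b) : ℝ) := by exact_mod_cast Fintype.card_pos
  have h1 : ∀ s : T b, ∑ y : ∀ a, T a, f (y a) * g (y b) =
      ∑ y : ∀ a, T a, f (y a) * g (y b + s) := by
    intro s
    refine (Fintype.sum_equiv (Equiv.addRight (Pi.single b s)) _ _ fun y => ?_).symm
    simp [Equiv.addRight, hab]
  have h2 : (Fintype.card (T b) : ℝ) * ∑ y : ∀ a, T a, f (y a) * g (y b) = 0 := by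
    calc (Fintype.card (T b) : ℝ) * ∑ y : ∀ a, T a, f (y a) * g (y b)
        = ∑ _s : T b, ∑ y : ∀ a, T a, f (y a) * g (y b) := by
          rw [Finset.sum_const, Finset.card_univ, nsmul_eq_mul]
      _ = ∑ s : T b, ∑ y : ∀ a, T a, f (y a) * g (y b + s) :=
          Finset.sum_congr rfl fun s _ => h1 s
      _ = ∑ y : ∀ a, T a, f (y a) * ∑ s : T b, g (y b + s) := by
          rw [Finset.sum_comm]
          exact Finset.sum_congr rfl fun y _ => by rw [Finset.mul_sum]
      _ = 0 := by
          refine Finset.sum_eq_zero fun y _ => ?_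
          rw [Fintype.sum_equiv (Equiv.addLeft (y b)) (fun s => g (y b + s)) g fun s => rfl, hg,
            mul_zero]
  rcases mul_eq_zero.1 h2 with h | h
  · exact absurd h hT.ne'
  · exact h

end fiber

/-- **The block.** -/
theorem block {ι : Type} [Fintype ι] [DecidableEq ι] (h : ℕ) (hh : 1 ≤ h) (p : ι → ℕ) (hp : ∀ a, (p a).Prime)
    [∀ a, NeZero (p a ^ h)]
    (hN : ∀ a, (3 / 4 : ℝ) * (p a : ℝ) ^ (h * (h - 1)) ≤ (NS h (p a) : ℝ))
    (L : ℝ) (hL : L = ∑ a, 1 / (p a : ℝ)) (hL0 : 0 < L) :
    Good h (∀ a, ZMod (p a ^ h)) (1 - 4 * h * ((h : ℝ) + 1) ^ 3 / L) (5 / 6) := by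
  classical
  have hp0 : ∀ a, (0 : ℝ) < p a := fun a => by exact_mod_cast (hp a).pos
  have hNS : ∀ a, 0 < NS h (p a) := fun a => by
    have : (0 : ℝ) < NS h (p a) := lt_of_lt_of_le (by have := hp0 a; positivity) (hN a)
    exact_mod_cast this
  set w : ι → ℝ := fun a => 1 / (p a * L) with hw
  have hw0 : ∀ a, 0 ≤ w a := fun a => by have := hp0 a; simp only [hw]; positivity
  have hw1 : ∑ a, w a = 1 := by
    have h1 : ∀ a, w a = 1 / (p a : ℝ) / L := fun a => by simp only [hw]; rw [div_div]
    rw [Finset.sum_congr rfl fun a _ => h1 a, ← Finset.sum_div, ← hL, div_self hL0.ne']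
  have hcard : ∀ a, (Fintype.card (ZMod (p a ^ h)) : ℝ) = (p a : ℝ) ^ h := fun a => by
    rw [ZMod.card]; push_cast; rfl
  set R : ℝ := (Fintype.card (∀ a, ZMod (p a ^ h)) : ℝ) with hR
  have hR0 : 0 < R := by rw [hR]; exact_mod_cast Fintype.card_pos
  -- the weights
  set W' : (Fin h → ∀ a, ZMod (p a ^ h)) → ℝ :=
    fun x => ∑ a, w a / 2 * av h (p a) (fun k => x k a) with hW'
  set ρ : Fin h → (∀ a, ZMod (p a ^ h)) → ℝ := fun _ y => ∑ a, w a / 2 * rr h (p a) (y a) with hρdef
  have hW'0 : ∀ x, 0 ≤ W' x := fun x =>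
    Finset.sum_nonneg fun a _ => mul_nonneg (by have := hw0 a; linarith) (av_nonneg _)
  have hρ : ∀ i, ∀ F : (∀ a, ZMod (p a ^ h)) → ℝ,
      ∑ x, W' x * F (x i) = R ^ (h - 1) * ∑ y, ρ i y * F y := by
    intro i F
    simp only [hW', Finset.sum_mul]
    rw [Finset.sum_comm]
    have h1 : ∀ a, ∑ x : Fin h → ∀ a, ZMod (p a ^ h),
        w a / 2 * av h (p a) (fun k => x k a) * F (x i) =
        R ^ (h - 1) * ∑ y : ∀ a, ZMod (p a ^ h), w a / 2 * rr h (p a) (y a) * F y := by
      intro a
      have h2 := fiber_sum (T := fun a => ZMod (p a ^ h)) a (av h (p a)) i F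
      have h3 : ∀ y : ∀ a, ZMod (p a ^ h), F y * ∑ z : Fin h → ZMod (p a ^ h),
          (if z i = y a then av h (p a) z else 0) =
          ((p a : ℝ) ^ h) ^ (h - 1) * (rr h (p a) (y a) * F y) := by
        intro y
        rw [av_marg (hp a) hh (hNS a) i (y a)]
        ring
      rw [Finset.sum_congr rfl fun y _ => h3 y, ← Finset.mul_sum, ← hR, hcard, div_pow,
        ← mul_assoc, div_mul_cancel₀ _ (by have := hp0 a; positivity)] at h2
      simp only [mul_assoc]
      rw [← Finset.mul_sum, ← Finset.mul_sum, h2]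
      ring
    rw [Finset.sum_congr rfl fun a _ => h1 a, ← Finset.mul_sum, Finset.sum_comm]
    congr 1
    refine Finset.sum_congr rfl fun y _ => ?_
    simp only [hρdef, Finset.sum_mul]
  -- the deviations
  set ξ : ∀ a, ZMod (p a ^ h) → ℝ := fun a t => rr h (p a) t / 2 - 1 with hξ
  have hρξ : ∀ i y, ρ i y - 1 = ∑ a, w a * ξ a (y a) := by
    intro i y
    simp only [hρdef, hξ, mul_sub, mul_one, Finset.sum_sub_distrib, hw1]
    congr 1
    exact Finset.sum_congr rfl fun a _ => by ring
  have hρsum : ∀ i, ∑ y, ρ i y = R := by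
    intro i
    have h1 : ∑ y, (ρ i y - 1) = 0 := by
      rw [Finset.sum_congr rfl fun y _ => hρξ i y, Finset.sum_comm]
      refine Finset.sum_eq_zero fun a _ => ?_
      rw [← Finset.mul_sum, fiber_one (T := fun a => ZMod (p a ^ h)) a (ξ a)]
      rw [show ∑ t, ξ a t = 0 from rr_sum (hp a) hh]
      simp
    rw [Finset.sum_sub_distrib, Finset.sum_const, Finset.card_univ, nsmul_eq_mul, mul_one, ← hR] at h1
    linarith
  have hW1 : ∑ x, W' x = R ^ h := by
    have h1 := hρ ⟨0, hh⟩ fun _ => 1
    simp only [mul_one] at h1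
    rw [h1, hρsum ⟨0, hh⟩, ← pow_succ]
    congr 1
    omega
  have hη : ∑ i, ∑ y, (ρ i y - 1) ^ 2 ≤ (h / (4 * L)) * R := by
    have h1 : ∀ i, ∑ y, (ρ i y - 1) ^ 2 ≤ 1 / (4 * L) * R := by
      intro i
      have h2 : ∀ y, (ρ i y - 1) ^ 2 = ∑ a, ∑ b, w a * w b * (ξ a (y a) * ξ b (y b)) := by
        intro y
        rw [hρξ i, sq, Finset.sum_mul_sum]
        exact Finset.sum_congr rfl fun a _ => Finset.sum_congr rfl fun b _ => by ring
      rw [Finset.sum_congr rfl fun y _ => h2 y, Finset.sum_comm]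
      have h3 : ∀ a, ∑ y : ∀ a, ZMod (p a ^ h), ∑ b, w a * w b * (ξ a (y a) * ξ b (y b)) =
          w a ^ 2 * ∑ y : ∀ a, ZMod (p a ^ h), ξ a (y a) ^ 2 := by
        intro a
        rw [Finset.sum_comm, Finset.sum_eq_single a]
        · rw [Finset.mul_sum]
          exact Finset.sum_congr rfl fun y _ => by ring
        · intro b _ hb
          rw [← Finset.mul_sum, fiber_two (T := fun a => ZMod (p a ^ h)) a b (Ne.symm hb) (ξ a) (ξ b)
            (rr_sum (hp b) hh), mul_zero]
        · intro ha
          exact absurd (Finset.mem_univ _) ha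
      rw [Finset.sum_congr rfl fun a _ => h3 a]
      calc ∑ a, w a ^ 2 * ∑ y : ∀ a, ZMod (p a ^ h), ξ a (y a) ^ 2
          ≤ ∑ a, 1 / (4 * L ^ 2) * R * (1 / (p a : ℝ)) := by
            refine Finset.sum_le_sum fun a _ => ?_
            rw [fiber_one (T := fun a => ZMod (p a ^ h)) a fun t => ξ a t ^ 2, hcard, ← hR]
            have h4 := rr_sq (hp a) hh
            have hpa := hp0 a
            have h5 : R / (p a : ℝ) ^ h * ∑ t, ξ a t ^ 2 ≤ R / (p a : ℝ) ^ h * ((p a : ℝ) ^ h * (p a / 4)) :=
              mul_le_mul_of_nonneg_left h4 (by positivity)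
            refine (mul_le_mul_of_nonneg_left h5 (sq_nonneg _)).trans (le_of_eq ?_)
            simp only [hw]
            field_simp
        _ = 1 / (4 * L) * R := by
            rw [← Finset.mul_sum, ← hL]
            field_simp
    refine (Finset.sum_le_sum fun i _ => h1 i).trans (le_of_eq ?_)
    rw [Finset.sum_const, Finset.card_univ, Fintype.card_fin, nsmul_eq_mul]
    ring
  -- the majorant
  refine ⟨fun x => (1 + W' x) / 2,
    fun n => 1 / 2 + ∑ a, 1 / 3 * w a * (p a : ℝ) ^ h * (if n a = 0 then 1 else 0),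
    fun x => by have := hW'0 x; linarith, fun y => ?_, fun x => ?_, ?_, fun G hG => ?_⟩
  · have : 0 ≤ ∑ a, 1 / 3 * w a * (p a : ℝ) ^ h * (if y a = 0 then 1 else 0) :=
      Finset.sum_nonneg fun a _ => by
        have h1 := hw0 a
        have h2 := hp0 a
        split_ifs <;> positivity
    linarith
  · have h1 : W' x / 2 ≤ ∑ a, 1 / 3 * w a * (p a : ℝ) ^ h * (if (∑ i, x i ^ h) a = 0 then 1 else 0) := by
      simp only [hW']
      rw [Finset.sum_div]
      refine Finset.sum_le_sum fun a _ => ?_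
      have h2 := av_le (hp a) hh (hN a) fun k => x k a
      have h3 : (∑ i, x i ^ h) a = ∑ i, x i a ^ h := by
        rw [Finset.sum_apply]; rfl
      rw [h3]
      have h4 := mul_le_mul_of_nonneg_left h2 (show 0 ≤ w a / 4 by have := hw0 a; linarith)
      refine (le_of_eq (by ring)).trans (h4.trans (le_of_eq (by ring)))
    linarith
  · rw [Finset.sum_add_distrib, Finset.sum_comm]
    have h1 : ∀ a, ∑ y : ∀ a, ZMod (p a ^ h), 1 / 3 * w a * (p a : ℝ) ^ h * (if y a = 0 then 1 else 0) =
        1 / 3 * w a * R := by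
      intro a
      rw [← Finset.mul_sum, fiber_one (T := fun a => ZMod (p a ^ h)) a fun t => if t = 0 then 1 else 0,
        hcard, ← hR]
      simp only [Finset.sum_ite_eq', Finset.mem_univ, if_true]
      have := hp0 a
      field_simp
    rw [Finset.sum_congr rfl fun a _ => h1 a, ← Finset.sum_mul, ← Finset.mul_sum, hw1,
      Finset.sum_const, Finset.card_univ, nsmul_eq_mul, ← hR]
    rw [div_le_iff₀ hR0]
    linarith
  · have h1 := rh h hh W' hW'0 hW1 ρ hρ _ hη G hG
    refine le_trans (mul_le_mul_of_nonneg_right ?_ ?_) h1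
    · have : 16 * ((h : ℝ) + 1) ^ 3 * (h / (4 * L)) = 4 * h * ((h : ℝ) + 1) ^ 3 / L := by
        field_simp
        ring
      rw [this]
    · exact Finset.prod_nonneg fun i _ => pow_nonneg
        (div_nonneg (Finset.sum_nonneg fun y _ => hG i y) (by positivity)) _

end Pool.Agent.Q248.HP
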