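import Mathlib

/-!
# Project HP (helper248, VERY FAMOUS row MP_d5a1e1_nt, Erdos-Turan of order `h`)

Theorem: bases of order `h ≥ 3` near the `h`-th powers have unbounded representation functions.
Statements of the lemma jobs, with proofs in words.
-/

set_option autoImplicit false

namespace Pool.Agent.Q248.HP

open Finset Filter

/-- **CN1** (theorem `t_CN1 : S_CN1`): solutions of `x_1^h + ... + x_h^h = 0` modulo `p`, all `x_i ≠ 0`.

Proof. Let `ψ` be a primitive additive character of `ZMod p` with values in `ℂ` (`ZMod.stdAddChar`,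
`ZMod.isPrimitive_stdAddChar`, `AddChar.sum_mulShift`) and `S a = ∑_{x ≠ 0} ψ (a x^h)`. Orthogonality:
`p N = ∑_a (S a)^h` and `S 0 = p - 1`. Parseval: `∑_a ‖S a‖^2 = p #{(x, y) | x, y ≠ 0, x^h = y^h}
≤ p h (p - 1)` (for given `y` at most `h` roots). `S (a c^h) = S a` for `c ≠ 0`, and for `a ≠ 0` there are at
least `(p - 1) / h` different `a c^h` (each has at most `h` values of `c`), so
`‖S a‖^2 (p - 1) / h ≤ ∑_b ‖S b‖^2 ≤ p h (p - 1)`, `‖S a‖ ≤ h √p`. Hence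
`p N ≥ (p - 1)^h - p (h √p)^h`, which is `≥ (3/4) p^h` for `p ≥ P0(h)` because `h ≥ 3`
(`p (h √p)^h = h^h p^(h/2 + 1) ≤ p^h / 8` as soon as `p ≥ (8 h^h)^2`, for `h ≥ 3`: `h/2 + 1 ≤ h - 1/2`). -/
def S_CN1 : Prop := ∀ h : ℕ, 3 ≤ h → ∃ P0 : ℕ, ∀ p : ℕ, p.Prime → P0 ≤ p →
  (3 / 4 : ℝ) * (p : ℝ) ^ (h - 1) ≤
    (Nat.card {x : Fin h → ZMod p // (∀ i, x i ≠ 0) ∧ ∑ i, x i ^ h = 0} : ℝ)

/-- **LFT** (theorem `t_LFT : S_LFT`): lifting of the solutions from `ZMod p` to `ZMod (p^h)`.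

Proof. For every unit `c` of `ZMod (p^h)` and `y : ZMod p` with `y^h = (c mod p)` there is exactly one `x`
with `x^h = c` and `x mod p = y`: the kernel `K` of `(ZMod (p^h))ˣ → (ZMod p)ˣ` (`ZMod.unitsMap`) has
`p^(h-1)` elements, prime to `h`, so `k ↦ k^h` is a bijection of `K` (`powCoprime`); lift `y` to a unit `z`, and
`c z^(-h) ∈ K` is `k^h`, `x = z k`. So: the map `{x | units, ∑ x i^h = 0} → {y | y i ≠ 0, ∑ y i^h = 0} × (the
coordinates x 1, ..., x (h-1))` (reduction and forgetting `x 0`) is onto all pairs which agree modulo `p`, and each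
`y` has `(p^(h-1))^(h-1)` lifts of the coordinates `1, ..., h-1`. It is enough to construct an injection from
`{y} × (Fin (h-1) → Fin (p^(h-1)))` into the solutions modulo `p^h`: lift `y i`, `i ≥ 1`, to
`(y i).val + p * t i`, and solve for `x 0` (`-∑_{i ≥ 1} x i^h` is a unit since it is `y 0^h` modulo `p`). -/
def S_LFT : Prop := ∀ h p : ℕ, 1 ≤ h → p.Prime → h < p →
  Nat.card {x : Fin h → ZMod p // (∀ i, x i ≠ 0) ∧ ∑ i, x i ^ h = 0} * p ^ ((h - 1) * (h - 1)) ≤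
    Nat.card {x : Fin h → ZMod (p ^ h) // (∀ i, IsUnit (x i)) ∧ ∑ i, x i ^ h = 0}

/-- the number of `x : Fin h → S` with `∑ x i ^ h = n` -/
def tup (S : Finset ℕ) (h n : ℕ) : ℕ :=
  ((Fintype.piFinset fun _ : Fin h => S).filter fun x => ∑ i, x i ^ h = n).card

/-- `(log log X)^c` -/
noncomputable def G (c : ℝ) (X : ℕ) : ℝ := Real.log (Real.log X) ^ c

/-- **INT** (mine): the theorem for dense sets of integers. -/
def S_INT : Prop := ∀ h : ℕ, 3 ≤ h → ∃ c : ℝ, 0 < c ∧ ∀ᶠ X : ℕ in atTop, ∀ S : Finset ℕ,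
  S ⊆ range X → (X : ℝ) / G c X ≤ (S.card : ℝ) → ∃ n : ℕ, G c X ≤ (tup S h n : ℝ)

/-- the number of multisets of `h` elements of `A` with sum `n` -/
noncomputable def rep (A : Set ℕ) (h n : ℕ) : ℕ :=
  Set.ncard {s : Multiset ℕ | Multiset.card s = h ∧ (∀ a ∈ s, a ∈ A) ∧ s.sum = n}

/-- The elements of `A` up to `x` lie within `H` of at most `H` sequences `α n^h + β`, `α ≥ 1 / H`. -/
def PowerLike (A : Set ℕ) (h x : ℕ) (H : ℝ) : Prop :=
  ∃ F : Finset (ℝ × ℝ), (F.card : ℝ) ≤ H ∧ (∀ f ∈ F, H⁻¹ ≤ f.1) ∧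
    ∀ a ∈ A, a ≤ x → ∃ f ∈ F, ∃ n : ℕ, |(a : ℝ) - (f.1 * n ^ h + f.2)| ≤ H

/-- **SEQ** (theorem `t_SEQ : S_INT → S_SEQ`): sets near finitely many sequences `α n^h + β`.

Proof. Let `c₀` be the constant of `INT`, `H = G c x` with `c` a small multiple of `c₀` (`c = c₀ / (100 h)`, say), `x`
large, so `H` is large and `H ^ 100 ≤ x`. (a) Pigeonhole: one `f = (α, β) ∈ F` has at least `x^(1/h) / H^2`
elements `a ∈ A`, `a ≤ x` within `H` of `α n^h + β`. Every `n` belongs to at most `2 H + 1` integers `a`, so at least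
`x^(1/h) / H^4` different `n` occur; choose one `a(n)` for each. (b) The `n` are `< X := ⌈x^(1/h) H^20⌉`:
let `n₀` be the least and `n₁` the largest `n` which occur, `m = n₁ - n₀ ≥ x^(1/h) / H^4 - 1`; then
`α n₁^(h-1) m ≤ α (n₁^h - n₀^h) ≤ x + 2 H`, so `n₁^(h-1) ≤ 2 x H / m ≤ x^((h-1)/h) H^6`. (c) So the set `S` of
the `n` which occur with `n > 2 H` and `n ≥ 2` has at least `x^(1/h) / H^5 ≥ X / G c₀ X` elements, `S ⊆ range X`,
and `a(n)` is injective on it (if `a(n) = a(n')`, `n > n'`, then `α (n^h - n'^h) ≤ 2 H`, but `n^h - n'^h ≥ n^(h-1) ≥ n^2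
> 2 H^2`). (d) `INT`: some `N` has at least `G c₀ X` tuples `x : Fin h → S` with `∑ x i ^ h = N`; for these
`∑ a(x i)` is an integer within `h H` of `α N + h β`: at most `2 h H + 1` values, so some `s` has at least
`G c₀ X / (2 h H + 1)` tuples `(a(x i))` with sum `s`, all entries in `A` and `≤ x`, `s ≤ h x`. A multiset of `h`
elements comes from at most `h!` tuples. So `rep A h s ≥ G c₀ X / (h! (2 h H + 1)) ≥ H`. See
`Pool.Agent.Q247.ET.Mas` / `Inf` (`transfer2`, `extract2`, `many_seq`) for the case `h = 2` by helper247. -/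
def S_SEQ : Prop := ∀ h : ℕ, 3 ≤ h → ∃ c : ℝ, 0 < c ∧ ∀ᶠ x : ℕ in atTop, ∀ A : Set ℕ,
  PowerLike A h x (G c x) →
  (x : ℝ) ^ (1 / h : ℝ) / G c x ≤ ({a : ℕ | a ∈ A ∧ a ≤ x}.ncard : ℝ) →
  ∃ s : ℕ, s ≤ h * x ∧ G c x ≤ (rep A h s : ℝ)

end Pool.Agent.Q248.HP
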