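import Mathlib
import Pool.Agent.Q248.HP.Good
import Pool.Agent.Q248.HP.Stm

/-!
# From good rings to dense sets of integers
-/

set_option autoImplicit false

namespace Pool.Agent.Q248.HP

open Finset

lemma sum_period (Q : ℕ) [NeZero Q] (V : ZMod Q → ℝ) :
    ∑ n ∈ range Q, V (n : ZMod Q) = ∑ y, V y := by
  refine Finset.sum_bij' (fun n _ => (n : ZMod Q)) (fun y _ => y.val) ?_ ?_ ?_ ?_ ?_
  · intro n _
    exact Finset.mem_univ _
  · intro y _
    exact Finset.mem_range.2 (ZMod.val_lt y)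
  · intro n hn
    exact ZMod.val_natCast_of_lt (Finset.mem_range.1 hn)
  · intro y _
    exact ZMod.natCast_zmod_val y
  · intro n _
    rfl

lemma sum_periods (Q : ℕ) [NeZero Q] (V : ZMod Q → ℝ) (m : ℕ) :
    ∑ n ∈ range (Q * m), V (n : ZMod Q) = m * ∑ y, V y := by
  induction m with
  | zero => simp
  | succ m ih =>
    rw [mul_add, mul_one, Finset.sum_range_add, ih]
    have : ∀ k, V ((Q * m + k : ℕ) : ZMod Q) = V (k : ZMod Q) := fun k => by
      congr 1
      push_cast
      simp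
    rw [Finset.sum_congr rfl fun k _ => this k, sum_period]
    push_cast
    ring

lemma sum_range_mod (Q : ℕ) [NeZero Q] (V : ZMod Q → ℝ) (hV : ∀ y, 0 ≤ V y) (N : ℕ) :
    ∑ n ∈ range N, V (n : ZMod Q) ≤ ((N : ℝ) / Q + 1) * ∑ y, V y := by
  have hQ : 0 < Q := Nat.pos_of_ne_zero (NeZero.ne Q)
  have h1 : range N ⊆ range (Q * (N / Q + 1)) := by
    refine Finset.range_subset_range.2 ?_
    exact (Nat.lt_mul_div_succ N hQ).le
  refine (Finset.sum_le_sum_of_subset_of_nonneg h1 fun _ _ _ => hV _).trans ?_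
  rw [sum_periods]
  refine mul_le_mul_of_nonneg_right ?_ (Finset.sum_nonneg fun y _ => hV y)
  push_cast
  have := Nat.cast_div_le (α := ℝ) (m := N) (n := Q)
  linarith

theorem int_of_good (h : ℕ) (hh : 1 ≤ h) (Q : ℕ) [NeZero Q] (β γ : ℝ) (hβ : 0 ≤ β)
    (hG : Good h (ZMod Q) β γ) (X : ℕ) (hX : Q ≤ X) (S : Finset ℕ) (hS : S ⊆ range X)
    (δ : ℝ) (hδ : 0 ≤ δ) (hδS : δ * X ≤ S.card) (K : ℝ) (hK : ∀ n, (tup S h n : ℝ) ≤ K) :
    β * (δ / 2) ^ (h * MM h) ≤ (h + 2) * γ * K := by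
  classical
  obtain ⟨W, V, hW, hV, hWV, hγ, hGG⟩ := hG
  have hQ : 0 < Q := Nat.pos_of_ne_zero (NeZero.ne Q)
  have hQ0 : (0 : ℝ) < Q := by exact_mod_cast hQ
  have hX0 : (0 : ℝ) < X := by exact_mod_cast hQ.trans_le hX
  have hX1 : (1 : ℝ) ≤ X := by exact_mod_cast (Nat.one_le_iff_ne_zero.2 (by omega) : 1 ≤ X)
  have hQX : (Q : ℝ) ≤ X := by exact_mod_cast hX
  have hMM : MM h ≠ 0 := by unfold MM; omega
  have hMM0 : (MM h : ℝ) ≠ 0 := by exact_mod_cast hMM
  have hK0 : 0 ≤ K := (Nat.cast_nonneg _).trans (hK 0)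
  have hcard : (Fintype.card (ZMod Q) : ℝ) = Q := by rw [ZMod.card]
  rw [hcard] at hγ
  simp only [hcard] at hGG
  -- the density
  set c : ZMod Q → ℝ := fun w => ∑ x ∈ S, (if (x : ZMod Q) = w then (1 : ℝ) else 0) with hc
  have hc0 : ∀ w, 0 ≤ c w := fun w => Finset.sum_nonneg fun x _ => by split_ifs <;> norm_num
  have hcle : ∀ w, c w * (Q / (2 * X)) ≤ 1 := by
    intro w
    have h1 : c w ≤ ∑ x ∈ range X, (if (x : ZMod Q) = w then (1 : ℝ) else 0) :=
      Finset.sum_le_sum_of_subset_of_nonneg hS fun _ _ _ => by split_ifs <;> norm_num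
    have h2 := sum_range_mod Q (fun y => if y = w then (1 : ℝ) else 0)
      (fun y => by split_ifs <;> norm_num) X
    simp only [Finset.sum_ite_eq', Finset.mem_univ, if_true, mul_one] at h2
    have h3 : c w ≤ 2 * X / Q := by
      refine (h1.trans h2).trans ?_
      rw [div_add_one hQ0.ne']
      exact div_le_div_of_nonneg_right (by linarith) hQ0.le
    calc c w * (Q / (2 * X)) ≤ (2 * X / Q) * (Q / (2 * X)) :=
          mul_le_mul_of_nonneg_right h3 (by positivity)
      _ = 1 := by field_simp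
  set f : ZMod Q → ℝ := fun w => c w * (Q / (2 * X)) with hf
  have hf0 : ∀ w, 0 ≤ f w := fun w => mul_nonneg (hc0 w) (by positivity)
  set G : ZMod Q → ℝ := fun w => f w ^ ((MM h : ℝ)⁻¹) with hGdef
  have hG0 : ∀ w, 0 ≤ G w := fun w => Real.rpow_nonneg (hf0 w) _
  have hGpow : ∀ w, G w ^ MM h = f w := fun w => by
    simp only [hGdef]
    rw [← Real.rpow_natCast, ← Real.rpow_mul (hf0 w), inv_mul_cancel₀ hMM0, Real.rpow_one]
  have hfG : ∀ w, f w ≤ G w := fun w => by
    have h1 : G w ≤ 1 := by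
      by_contra h2
      rw [not_le] at h2
      have h3 := one_lt_pow₀ h2 hMM
      rw [hGpow] at h3
      exact absurd (hcle w) (not_le.2 h3)
    calc f w = G w ^ MM h := (hGpow w).symm
      _ ≤ G w ^ 1 := pow_le_pow_of_le_one (hG0 w) h1 (Nat.one_le_iff_ne_zero.2 hMM)
      _ = G w := pow_one _
  have hcsum : ∑ w, c w = S.card := by
    simp only [hc]
    rw [Finset.sum_comm]
    simp
  have hmean : δ / 2 ≤ (∑ w, G w) / Q := by
    rw [le_div_iff₀ hQ0]
    refine le_trans ?_ (Finset.sum_le_sum fun w _ => hfG w)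
    simp only [hf]
    rw [← Finset.sum_mul, hcsum]
    calc δ / 2 * Q = (δ * X) * (Q / (2 * X)) := by field_simp
      _ ≤ S.card * (Q / (2 * X)) := mul_le_mul_of_nonneg_right hδS (by positivity)
  have h1 := hGG (fun _ => G) fun _ => hG0
  have h2 : β * (δ / 2) ^ (h * MM h) ≤ β * ∏ _i : Fin h, ((∑ y, G y) / Q) ^ MM h := by
    rw [Finset.prod_const, Finset.card_univ, Fintype.card_fin, ← pow_mul, mul_comm (MM h) h]
    exact mul_le_mul_of_nonneg_left (pow_le_pow_left₀ (by linarith) hmean _) hβ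
  refine (h2.trans h1).trans ?_
  -- the right side
  have h3 : ∑ x, W x * ∏ i, G (x i) ^ MM h =
      (Q / (2 * X)) ^ h * ∑ x ∈ Fintype.piFinset fun _ : Fin h => S, W fun i => (x i : ZMod Q) := by
    have h4 : ∀ x : Fin h → ZMod Q, W x * ∏ i, G (x i) ^ MM h =
        (Q / (2 * X)) ^ h * ∑ z ∈ Fintype.piFinset fun _ : Fin h => S,
          (if (fun i => (z i : ZMod Q)) = x then W x else 0) := by
      intro x
      have h5 : ∏ i, G (x i) ^ MM h = (Q / (2 * X)) ^ h * ∏ i, c (x i) := by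
        rw [Finset.prod_congr rfl fun i _ => hGpow (x i)]
        simp only [hf]
        rw [Finset.prod_mul_distrib, Finset.prod_const, Finset.card_univ, Fintype.card_fin, mul_comm]
      have h6 : ∏ i, c (x i) = ∑ z ∈ Fintype.piFinset fun _ : Fin h => S,
          (if (fun i => (z i : ZMod Q)) = x then (1 : ℝ) else 0) := by
        simp only [hc]
        rw [Finset.prod_univ_sum]
        refine Finset.sum_congr rfl fun z _ => ?_
        rw [Finset.prod_ite_zero]
        simp only [Finset.mem_univ, true_imp_iff, Finset.prod_const_one, funext_iff]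
      rw [h5, h6, mul_left_comm, Finset.mul_sum]
      congr 1
      refine Finset.sum_congr rfl fun z _ => ?_
      split_ifs <;> simp
    rw [Finset.sum_congr rfl fun x _ => h4 x, ← Finset.mul_sum, Finset.sum_comm]
    congr 1
    refine Finset.sum_congr rfl fun z _ => ?_
    rw [Finset.sum_ite_eq]
    simp
  rw [h3]
  set N : ℕ := h * X ^ h + 1 with hN
  have h7 : ∑ x ∈ Fintype.piFinset fun _ : Fin h => S, W (fun i => (x i : ZMod Q)) ≤
      K * ∑ n ∈ range N, V (n : ZMod Q) := by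
    have h8 : ∑ x ∈ Fintype.piFinset fun _ : Fin h => S, W (fun i => (x i : ZMod Q)) ≤
        ∑ x ∈ Fintype.piFinset fun _ : Fin h => S, V ((∑ i, x i ^ h : ℕ) : ZMod Q) := by
      refine Finset.sum_le_sum fun x _ => ?_
      refine (hWV _).trans (le_of_eq ?_)
      congr 1
      push_cast
      rfl
    refine h8.trans ?_
    have h9 : ∀ x ∈ Fintype.piFinset fun _ : Fin h => S, (∑ i, x i ^ h) ∈ range N := by
      intro x hx
      rw [Finset.mem_range, hN, Nat.lt_succ_iff]
      calc ∑ i, x i ^ h ≤ ∑ _i : Fin h, X ^ h := by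
            refine Finset.sum_le_sum fun i _ => ?_
            have := Fintype.mem_piFinset.1 hx i
            exact Nat.pow_le_pow_left (Finset.mem_range.1 (hS this)).le h
        _ = h * X ^ h := by simp
    rw [← Finset.sum_fiberwise_of_maps_to h9 fun x => V ((∑ i, x i ^ h : ℕ) : ZMod Q),
      Finset.mul_sum]
    refine Finset.sum_le_sum fun n _ => ?_
    rw [Finset.sum_congr rfl (g := fun _ => V (n : ZMod Q)) fun x hx => by
      rw [(Finset.mem_filter.1 hx).2], Finset.sum_const, nsmul_eq_mul]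
    exact mul_le_mul_of_nonneg_right (hK n) (hV _)
  have h10 := sum_range_mod Q V hV N
  have hVs : ∑ y, V y ≤ γ * Q := by rwa [div_le_iff₀ hQ0] at hγ
  have hVs0 : 0 ≤ ∑ y, V y := Finset.sum_nonneg fun y _ => hV y
  have hXh : (X : ℝ) ≤ (X : ℝ) ^ h := le_self_pow₀ hX1 (by omega)
  have hXh1 : (1 : ℝ) ≤ (X : ℝ) ^ h := one_le_pow₀ hX1
  have hNr : (N : ℝ) = h * (X : ℝ) ^ h + 1 := by rw [hN]; push_cast; ring
  have hγ0 : 0 ≤ γ := le_trans (div_nonneg hVs0 hQ0.le) hγ
  have h11 : ∑ n ∈ range N, V (n : ZMod Q) ≤ (h + 2) * (X : ℝ) ^ h * γ := by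
    refine h10.trans ((mul_le_mul_of_nonneg_left hVs (by positivity)).trans ?_)
    have : ((N : ℝ) / Q + 1) * (γ * Q) = (N + Q) * γ := by field_simp
    rw [this]
    refine mul_le_mul_of_nonneg_right ?_ hγ0
    rw [hNr]
    linarith
  rw [div_le_iff₀ (by positivity)]
  calc (Q / (2 * X)) ^ h * ∑ x ∈ Fintype.piFinset fun _ : Fin h => S, W (fun i => (x i : ZMod Q))
      ≤ (Q / (2 * X)) ^ h * (K * ((h + 2) * (X : ℝ) ^ h * γ)) :=
        mul_le_mul_of_nonneg_left (h7.trans (mul_le_mul_of_nonneg_left h11 hK0)) (by positivity)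
    _ = (h + 2) * γ * K * (Q : ℝ) ^ h / 2 ^ h := by
        rw [div_pow, mul_pow]
        field_simp
    _ ≤ (h + 2) * γ * K * (Q : ℝ) ^ h := by
        refine div_le_self (by positivity) (one_le_pow₀ (by norm_num))

end Pool.Agent.Q248.HP
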