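import Mathlib
import Pool.Agent.Q248.HP.Blk
import Pool.Agent.Q248.HP.Int
import Pool.Agent.Q65.HP.Cn1
import Pool.Agent.Q214.HP.Lft
import Pool.Agent.Helper923.HMertens

/-!
# Dense sets of integers: `S_INT`
-/

set_option autoImplicit false

namespace Pool.Agent.Q248.HP

open Finset Filter

lemma good_mono {h : ℕ} {R : Type} [CommRing R] [Fintype R] {β β' γ : ℝ} (hβ : β' ≤ β)
    (hR : Good h R β γ) : Good h R β' γ := by
  obtain ⟨W, V, hW, hV, hWV, hγ, hG⟩ := hR
  refine ⟨W, V, hW, hV, hWV, hγ, fun G hG0 => le_trans ?_ (hG G hG0)⟩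
  exact mul_le_mul_of_nonneg_right hβ (Finset.prod_nonneg fun i _ => pow_nonneg
    (div_nonneg (Finset.sum_nonneg fun y _ => hG0 i y) (Nat.cast_nonneg _)) _)

/-- solutions modulo `p^h` -/
lemma exists_NS (h : ℕ) (hh : 3 ≤ h) : ∃ P0 : ℕ, ∀ p : ℕ, p.Prime → P0 ≤ p →
    (3 / 4 : ℝ) * (p : ℝ) ^ (h * (h - 1)) ≤ (NS h p : ℝ) := by
  obtain ⟨P0, hP0⟩ := t_CN1 h hh
  refine ⟨max P0 (h + 1), fun p hp hpP => ?_⟩
  have h1 := hP0 p hp ((le_max_left _ _).trans hpP)
  have h2 := t_LFT h p (by omega) hp (lt_of_lt_of_le (Nat.lt_succ_self h)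
    ((le_max_right _ _).trans hpP))
  have h3 : (Nat.card {x : Fin h → ZMod p // (∀ i, x i ≠ 0) ∧ ∑ i, x i ^ h = 0} : ℝ) *
      (p : ℝ) ^ ((h - 1) * (h - 1)) ≤ (NS h p : ℝ) := by
    unfold NS
    exact_mod_cast h2
  refine le_trans ?_ h3
  have e : h * (h - 1) = (h - 1) + (h - 1) * (h - 1) := by
    obtain ⟨k, rfl⟩ : ∃ k, h = k + 1 := ⟨h - 1, by omega⟩
    simp only [Nat.add_sub_cancel]
    ring
  rw [e, pow_add, ← mul_assoc]
  exact mul_le_mul_of_nonneg_right h1 (by positivity)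

/-- the modulus of the primes in `(a, b]` -/
def QQ (h a b : ℕ) : ℕ := ∏ p ∈ (Finset.Ioc a b).filter Nat.Prime, p ^ h

lemma QQ_ne (h a b : ℕ) : QQ h a b ≠ 0 :=
  Finset.prod_ne_zero_iff.2 fun p hp => pow_ne_zero _ (Finset.mem_filter.1 hp).2.ne_zero

lemma QQ_self (h a : ℕ) : QQ h a a = 1 := by simp [QQ]

lemma QQ_mul (h a b c : ℕ) (hab : a ≤ b) (hbc : b ≤ c) : QQ h a b * QQ h b c = QQ h a c := by
  unfold QQ
  rw [← Finset.prod_union]
  · congr 1
    ext p
    simp only [Finset.mem_union, Finset.mem_filter, Finset.mem_Ioc]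
    constructor
    · rintro (⟨⟨h1, h2⟩, h3⟩ | ⟨⟨h1, h2⟩, h3⟩)
      · exact ⟨⟨h1, by omega⟩, h3⟩
      · exact ⟨⟨by omega, h2⟩, h3⟩
    · rintro ⟨⟨h1, h2⟩, h3⟩
      by_cases h4 : p ≤ b
      · exact Or.inl ⟨⟨h1, h4⟩, h3⟩
      · exact Or.inr ⟨⟨by omega, h2⟩, h3⟩
  · rw [Finset.disjoint_left]
    intro p h1 h2
    have h3 := (Finset.mem_Ioc.1 (Finset.mem_filter.1 h1).1).2
    have h4 := (Finset.mem_Ioc.1 (Finset.mem_filter.1 h2).1).1
    omega

lemma QQ_coprime (h a b c : ℕ) : (QQ h a b).Coprime (QQ h b c) := by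
  unfold QQ
  refine Nat.Coprime.prod_left fun p hp => Nat.Coprime.prod_right fun q hq => ?_
  rw [Finset.mem_filter, Finset.mem_Ioc] at hp hq
  exact Nat.Coprime.pow _ _ ((Nat.coprime_primes hp.2 hq.2).2 (by omega))

lemma QQ_le (h a b : ℕ) : QQ h a b ≤ 4 ^ (h * b) := by
  unfold QQ
  rw [Finset.prod_pow, mul_comm, pow_mul]
  refine Nat.pow_le_pow_left ?_ h
  refine le_trans ?_ (primorial_le_four_pow b)
  unfold primorial
  refine Finset.prod_le_prod_of_subset_of_one_le' ?_ fun p hp _ => (Finset.mem_filter.1 hp).2.one_lt.le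
  intro p hp
  rw [Finset.mem_filter, Finset.mem_Ioc] at hp
  rw [Finset.mem_filter, Finset.mem_range]
  exact ⟨by omega, hp.2⟩

/-- one block -/
lemma good_block (h : ℕ) (hh : 3 ≤ h) (P0 : ℕ) (hP0 : ∀ p : ℕ, p.Prime → P0 ≤ p →
    (3 / 4 : ℝ) * (p : ℝ) ^ (h * (h - 1)) ≤ (NS h p : ℝ)) (a b : ℕ) (ha : P0 ≤ a)
    (hL : 400 * h * ((h : ℝ) + 1) ^ 3 ≤ ∑ p ∈ (Finset.Ioc a b).filter Nat.Prime, (1 : ℝ) / p)
    [NeZero (QQ h a b)] : Good h (ZMod (QQ h a b)) (99 / 100) (5 / 6) := by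
  classical
  have hh0 : (3 : ℝ) ≤ h := by exact_mod_cast hh
  set P := (Finset.Ioc a b).filter Nat.Prime with hP
  have hpr : ∀ i : P, (i : ℕ).Prime := fun i => (Finset.mem_filter.1 i.2).2
  have : ∀ i : P, NeZero ((i : ℕ) ^ h) := fun i => ⟨pow_ne_zero _ (hpr i).ne_zero⟩
  have hsum : ∑ i : P, 1 / ((i : ℕ) : ℝ) = ∑ p ∈ P, (1 : ℝ) / p :=
    Finset.sum_coe_sort P fun p => (1 : ℝ) / (p : ℝ)
  have hLpos : 0 < ∑ i : P, 1 / ((i : ℕ) : ℝ) := by
    rw [hsum]
    refine lt_of_lt_of_le ?_ hL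
    positivity
  have h1 := block (ι := P) h (by omega) (fun i => (i : ℕ)) hpr
    (fun i => hP0 _ (hpr i) (ha.trans (Finset.mem_Ioc.1 (Finset.mem_filter.1 i.2).1).1.le)) _ rfl hLpos
  have h2 : (99 / 100 : ℝ) ≤ 1 - 4 * h * ((h : ℝ) + 1) ^ 3 / ∑ i : P, 1 / ((i : ℕ) : ℝ) := by
    have : 4 * h * ((h : ℝ) + 1) ^ 3 / ∑ i : P, 1 / ((i : ℕ) : ℝ) ≤ 1 / 100 := by
      rw [div_le_iff₀ hLpos, hsum]
      linarith
    linarith
  have h3 := good_mono h2 h1
  have hcop : Pairwise (Function.onFun Nat.Coprime fun i : P => (i : ℕ) ^ h) := by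
    intro i j hij
    refine Nat.Coprime.pow _ _ ((Nat.coprime_primes (hpr i) (hpr j)).2 ?_)
    exact fun e => hij (Subtype.ext e)
  have : NeZero (∏ i : P, (i : ℕ) ^ h) :=
    ⟨Finset.prod_ne_zero_iff.2 fun i _ => pow_ne_zero _ (hpr i).ne_zero⟩
  have h4 := good_equiv (ZMod.prodEquivPi (fun i : P => (i : ℕ) ^ h) hcop).symm h3
  have h5 : ∏ i : P, (i : ℕ) ^ h = QQ h a b := by
    unfold QQ
    exact Finset.prod_coe_sort P fun p => p ^ h
  have h6 : ∀ (n m : ℕ) [NeZero n] [NeZero m], n = m → Good h (ZMod n) (99 / 100) (5 / 6) →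
      Good h (ZMod m) (99 / 100) (5 / 6) := by
    intro n m i1 i2 e hg
    subst e
    convert hg
  exact h6 _ _ h5 h4

lemma blocks (h : ℕ) (hh : 3 ≤ h) : ∃ a K : ℕ, 2 ≤ a ∧ 2 ≤ K ∧ ∀ J : ℕ,
    ∃ (Q : ℕ) (_ : NeZero Q), Q ≤ 4 ^ (h * a ^ K ^ J) ∧
      Good h (ZMod Q) ((99 / 100) ^ J) ((5 / 6) ^ J) := by
  obtain ⟨P0, hP0⟩ := exists_NS h hh
  obtain ⟨C, hC0, hC⟩ := Pool.Agent.Helper923.HMertens.mertens_ratio
  obtain ⟨a, ha⟩ : ∃ a : ℕ, max (max (P0 : ℝ) 2) (Real.exp C) ≤ a := exists_nat_ge _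
  have ha1 : P0 ≤ a := by
    have : (P0 : ℝ) ≤ a := ((le_max_left _ _).trans (le_max_left _ _)).trans ha
    exact_mod_cast this
  have ha2 : 2 ≤ a := by
    have : (2 : ℝ) ≤ a := ((le_max_right _ _).trans (le_max_left _ _)).trans ha
    exact_mod_cast this
  have ha3 : C ≤ Real.log a := by
    rw [Real.le_log_iff_exp_le (by positivity)]
    exact (le_max_right _ _).trans ha
  obtain ⟨K, hK⟩ : ∃ K : ℕ, max 2 (Real.exp (400 * h * ((h : ℝ) + 1) ^ 3 + 1)) ≤ K := exists_nat_ge _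
  have hK2 : 2 ≤ K := by
    have : (2 : ℝ) ≤ K := (le_max_left _ _).trans hK
    exact_mod_cast this
  have hK3 : 400 * h * ((h : ℝ) + 1) ^ 3 + 1 ≤ Real.log K := by
    rw [Real.le_log_iff_exp_le (by positivity)]
    exact (le_max_right _ _).trans hK
  have hloga : 0 < Real.log a := Real.log_pos (by exact_mod_cast ha2)
  refine ⟨a, K, ha2, hK2, fun J => ?_⟩
  have key : ∀ J : ℕ, ∃ (_ : NeZero (QQ h a (a ^ K ^ J))),
      Good h (ZMod (QQ h a (a ^ K ^ J))) ((99 / 100) ^ J) ((5 / 6) ^ J) := by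
    intro J
    induction J with
    | zero =>
      refine ⟨⟨QQ_ne _ _ _⟩, ?_⟩
      have h6 : ∀ (n m : ℕ) [NeZero n] [NeZero m], n = m → Good h (ZMod n) 1 1 →
          Good h (ZMod m) 1 1 := by
        intro n m i1 i2 e hg
        subst e
        convert hg
      have : NeZero (QQ h a (a ^ K ^ 0)) := ⟨QQ_ne _ _ _⟩
      have := h6 1 (QQ h a (a ^ K ^ 0)) (by rw [pow_zero, pow_one, QQ_self]) (good_one h)
      simpa using this
    | succ J ih =>
      obtain ⟨i1, ih⟩ := ih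
      refine ⟨⟨QQ_ne _ _ _⟩, ?_⟩
      set b := a ^ K ^ J with hb
      have hb' : a ^ K ^ (J + 1) = b ^ K := by rw [hb, ← pow_mul, ← pow_succ]
      have i2 : NeZero (QQ h b (b ^ K)) := ⟨QQ_ne _ _ _⟩
      have i3 : NeZero (QQ h a (a ^ K ^ (J + 1))) := ⟨QQ_ne _ _ _⟩
      have hab : a ≤ b := by
        rw [hb]
        exact Nat.le_self_pow (pow_ne_zero _ (by omega)) a
      have hb2 : 2 ≤ b := ha2.trans hab
      have hbK : b ≤ b ^ K := Nat.le_self_pow (by omega) b
      have hlogb : Real.log a ≤ Real.log b :=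
        Real.log_le_log (by positivity) (by exact_mod_cast hab)
      have hlogb0 : 0 < Real.log b := lt_of_lt_of_le hloga hlogb
      have h1 := hC b (b ^ K) hb2 hbK
      have h2 : Real.log (Real.log ((b ^ K : ℕ) : ℝ) / Real.log b) = Real.log K := by
        push_cast
        rw [Real.log_pow, mul_div_assoc, div_self hlogb0.ne', mul_one]
      rw [h2] at h1
      have h3 : C / Real.log b ≤ 1 := by
        rw [div_le_one hlogb0]
        exact ha3.trans hlogb
      have h4 : 400 * h * ((h : ℝ) + 1) ^ 3 ≤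
          ∑ p ∈ (Finset.Ioc b (b ^ K)).filter Nat.Prime, (1 : ℝ) / p := by
        have := (abs_le.1 h1).1
        linarith
      have h5 := good_block h hh P0 hP0 b (b ^ K) (ha1.trans hab) h4
      have h6 := good_mul (QQ_coprime h a b (b ^ K)) ih h5 (by norm_num)
      have h7 : ∀ (n m : ℕ) [NeZero n] [NeZero m] (β γ : ℝ), n = m → Good h (ZMod n) β γ →
          Good h (ZMod m) β γ := by
        intro n m i1 i2 β γ e hg
        subst e
        convert hg
      have h8 := h7 _ (QQ h a (a ^ K ^ (J + 1))) _ _ (by rw [hb', QQ_mul h a b (b ^ K) hab hbK]) h6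
      rw [pow_succ, pow_succ]
      exact h8
  obtain ⟨i, hi⟩ := key J
  exact ⟨QQ h a (a ^ K ^ J), i, QQ_le _ _ _, hi⟩

lemma tend_ll : Tendsto (fun X : ℕ => Real.log (Real.log (X : ℝ))) atTop atTop :=
  Real.tendsto_log_atTop.comp (Real.tendsto_log_atTop.comp tendsto_natCast_atTop_atTop)

theorem t_INT : S_INT := by
  intro h hh
  obtain ⟨a, K, ha, hK, hblocks⟩ := blocks h hh
  have hloga : 0 < Real.log a := Real.log_pos (by exact_mod_cast ha)
  have hlogK : 0 < Real.log K := Real.log_pos (by exact_mod_cast hK)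
  have hq0 : 0 < Real.log (297 / 250) := Real.log_pos (by norm_num)
  set σ : ℝ := Real.log (297 / 250) / Real.log K with hσ
  have hσ0 : 0 < σ := div_pos hq0 hlogK
  set D : ℕ := h * MM h with hD
  set c : ℝ := σ / (2 * (1 + D)) with hc
  have hc0 : 0 < c := by rw [hc]; positivity
  refine ⟨c, hc0, ?_⟩
  set B : ℝ := 297 / 250 * (h + 2) * 2 ^ D * (2 * Real.log a) ^ σ with hB
  have e1 := tend_ll.eventually (eventually_ge_atTop (1 : ℝ))
  have e2 := tend_ll.eventually (eventually_ge_atTop (2 * Real.log a))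
  have e3 := (Real.tendsto_exp_atTop.comp (tend_ll.atTop_div_const (show (0 : ℝ) < 2 by norm_num))
    ).eventually (eventually_ge_atTop (h * Real.log 4))
  have e4 := ((tendsto_rpow_atTop (show (0 : ℝ) < σ / 2 by positivity)).comp tend_ll).eventually
    (eventually_gt_atTop B)
  filter_upwards [e1, e2, e3, e4, eventually_ge_atTop 1] with X h1 h2 h3 h4 hX1 S hS hcard
  simp only [Function.comp_apply] at h3 h4
  set y : ℝ := Real.log (Real.log (X : ℝ)) with hy
  have hX0 : (0 : ℝ) < X := by exact_mod_cast hX1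
  have hlogX : 0 < Real.log (X : ℝ) := by
    by_contra hcon
    rw [not_lt] at hcon
    have h0 : 0 ≤ Real.log (X : ℝ) := Real.log_natCast_nonneg X
    have : Real.log (X : ℝ) = 0 := le_antisymm hcon h0
    rw [hy, this, Real.log_zero] at h1
    norm_num at h1
  have hexpy : Real.exp y = Real.log (X : ℝ) := Real.exp_log hlogX
  have hy0 : 0 < y := by linarith
  -- the number of blocks
  set u : ℝ := y / (2 * Real.log a) with hu
  have hu1 : 1 ≤ u := by rw [hu, le_div_iff₀ (by positivity)]; linarith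
  set J : ℕ := ⌊Real.log u / Real.log K⌋₊ with hJ
  have hJ1 : (J : ℝ) * Real.log K ≤ Real.log u := by
    rw [← le_div_iff₀ hlogK]
    exact Nat.floor_le (div_nonneg (Real.log_nonneg hu1) hlogK.le)
  have hJ2 : Real.log u ≤ ((J : ℝ) + 1) * Real.log K := by
    rw [← div_le_iff₀ hlogK]
    exact (Nat.lt_floor_add_one _).le
  have hKJ : (K : ℝ) ^ J ≤ u := by
    have hK0 : (0 : ℝ) < K := by exact_mod_cast (by omega : 0 < K)
    rw [← Real.exp_log hK0, ← Real.exp_nat_mul]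
    calc Real.exp (J * Real.log K) ≤ Real.exp (Real.log u) := Real.exp_le_exp.2 hJ1
      _ = u := Real.exp_log (by linarith)
  obtain ⟨Q, hQne, hQ, hgood⟩ := hblocks J
  have hQX : Q ≤ X := by
    have h5 : (Q : ℝ) ≤ X := by
      calc (Q : ℝ) ≤ ((4 ^ (h * a ^ K ^ J) : ℕ) : ℝ) := by exact_mod_cast hQ
        _ = Real.exp ((h * a ^ K ^ J : ℕ) * Real.log 4) := by
            rw [Real.exp_nat_mul, Real.exp_log (by norm_num)]
            push_cast
            rfl
        _ ≤ Real.exp (Real.log X) := by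
            refine Real.exp_le_exp.2 ?_
            have ha0 : (0 : ℝ) < a := by exact_mod_cast (by omega : 0 < a)
            have h6 : (a : ℝ) ^ K ^ J ≤ Real.exp (y / 2) := by
              rw [← Real.exp_log ha0, ← Real.exp_nat_mul]
              refine Real.exp_le_exp.2 ?_
              push_cast
              calc (K : ℝ) ^ J * Real.log a ≤ u * Real.log a :=
                    mul_le_mul_of_nonneg_right hKJ hloga.le
                _ = y / 2 := by rw [hu]; field_simp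
            push_cast
            calc (h : ℝ) * (a : ℝ) ^ K ^ J * Real.log 4 = (h * Real.log 4) * (a : ℝ) ^ K ^ J := by ring
              _ ≤ Real.exp (y / 2) * Real.exp (y / 2) :=
                  mul_le_mul h3 h6 (by positivity) (Real.exp_pos _).le
              _ = Real.log X := by rw [← Real.exp_add, add_halves, hexpy]
        _ = X := Real.exp_log hX0
    exact_mod_cast h5
  by_contra hcon
  push Not at hcon
  have hG0 : 0 < G c X := Real.rpow_pos_of_pos hy0 _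
  have h5 := int_of_good h (by omega) Q _ _ (by positivity) hgood X hQX S hS (1 / G c X)
    (by positivity) (by rw [one_div, inv_mul_eq_div]; exact hcard) (G c X) fun n => (hcon n).le
  -- derive the contradiction
  have h6 : (297 / 250 : ℝ) ^ J ≤ (h + 2) * 2 ^ D * (G c X) ^ (1 + D) := by
    have h7 : (297 / 250 : ℝ) ^ J * (5 / 6) ^ J = (99 / 100) ^ J := by
      rw [← mul_pow]; norm_num
    have h8 : (1 / G c X / 2) ^ D = 1 / (2 ^ D * (G c X) ^ D) := by
      rw [div_div, div_pow, one_pow, mul_pow]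
      ring
    rw [← hD, h8, ← h7, mul_one_div, div_le_iff₀ (by positivity)] at h5
    have h9 : (0 : ℝ) < (5 / 6) ^ J := by positivity
    have h10 : (297 / 250 : ℝ) ^ J * (5 / 6) ^ J ≤
        ((h + 2) * 2 ^ D * (G c X) ^ (1 + D)) * (5 / 6) ^ J := by
      refine h5.trans (le_of_eq ?_)
      rw [pow_add, pow_one]
      ring
    exact le_of_mul_le_mul_right h10 h9
  have h7 : (G c X) ^ (1 + D) = y ^ (σ / 2) := by
    show (y ^ c) ^ (1 + D) = _
    rw [← Real.rpow_natCast, ← Real.rpow_mul hy0.le]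
    congr 1
    rw [hc]
    push_cast
    have : (1 + (D : ℝ)) ≠ 0 := by positivity
    field_simp
  rw [h7] at h6
  have h8 : u ^ σ ≤ (297 / 250 : ℝ) ^ (J + 1) := by
    have hu0 : 0 < u := by linarith
    rw [Real.rpow_def_of_pos hu0, ← Real.exp_log (show (0 : ℝ) < 297 / 250 by norm_num),
      ← Real.exp_nat_mul]
    refine Real.exp_le_exp.2 ?_
    have h9 := mul_le_mul_of_nonneg_right hJ2 hσ0.le
    refine h9.trans (le_of_eq ?_)
    rw [hσ]
    push_cast
    field_simp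
  have h9 : u ^ σ = y ^ σ / (2 * Real.log a) ^ σ := by
    rw [hu, Real.div_rpow hy0.le (by positivity)]
  rw [h9, div_le_iff₀ (by positivity)] at h8
  have h10 : y ^ σ = y ^ (σ / 2) * y ^ (σ / 2) := by
    rw [← Real.rpow_add hy0, add_halves]
  have hyp : 0 < y ^ (σ / 2) := Real.rpow_pos_of_pos hy0 _
  have h11 : y ^ (σ / 2) * y ^ (σ / 2) ≤ B * y ^ (σ / 2) := by
    rw [← h10]
    refine h8.trans ?_
    rw [pow_succ, hB]
    have h12 : (0 : ℝ) < (2 * Real.log a) ^ σ := by positivity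
    calc (297 / 250 : ℝ) ^ J * (297 / 250) * (2 * Real.log a) ^ σ
        ≤ ((h + 2) * 2 ^ D * y ^ (σ / 2)) * (297 / 250) * (2 * Real.log a) ^ σ := by
          refine mul_le_mul_of_nonneg_right (mul_le_mul_of_nonneg_right h6 (by norm_num)) h12.le
      _ = _ := by ring
  have h12 := le_of_mul_le_mul_right h11 hyp
  linarith

end Pool.Agent.Q248.HP
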